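import Pool.Agent.X246.CMI.Sound

/-!
# A solution of the system of equations gives a solution of the bilinear system and matrices
-/

set_option autoImplicit false

namespace Pool.Agent.X246.CMI

open Pool.Agent.NPC Finset

/-- Row vectors of a solution. -/
noncomputable def rowL (x : ℕ → ℝ) (d : D) : List ℝ := ([[1],
    [1, 0, 0, -1],
    [0, -1, 0, 1],
    [0, 1, -1],
    [0, 0, 1, 0, -1],
    [0, 1],
    [1],
    [1],
    [-x d.2.1, 1],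
    [-x d.2.1, 0, 1],
    [0, 0, 0, -x d.2.1, 1],
    [0, 0, 0, 1],
    [0, -x d.2.1, 1],
    [-x d.2.1, 1, -1],
    [1],
    [1],
    [-x d.2.1, 1]] : List (List ℝ)).getD d.1 []

/-- Column vectors of a solution. -/
noncomputable def colL (x : ℕ → ℝ) (d : D) : List ℝ := ([[1, 1, 1, 1, 1],
    [1],
    [0, 0, 0, 1],
    [0, 1],
    [0, 0, 1],
    [0, 1, 1],
    [1, x d.2.1, x d.2.1, 1, x d.2.1],
    [1, x d.2.1],
    [0, 1],
    [0, 0, 1],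
    [0, 0, 0, 0, 1],
    [0, 1, x d.2.1, 1, x d.2.1],
    [0, 0, 1],
    [0, 1],
    [1, x d.2.2.2, x d.2.2.1],
    [1, x d.2.1, x d.2.2.2],
    [0, 1]] : List (List ℝ)).getD d.1 []

theorem rowL_zero (x : ℕ → ℝ) (d : D) (hd : d.1 < 17) (k : ℕ) (hk : k < 5)
    (h : rsup d.1 k = false) : (rowL x d).getD k 0 = 0 := by
  obtain ⟨p, u, v, w⟩ := d
  simp only at hd h
  interval_cases p <;> interval_cases k <;> first
    | (exfalso; revert h; decide)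
    | simp [rowL]

theorem colL_zero (x : ℕ → ℝ) (d : D) (hd : d.1 < 17) (k : ℕ) (hk : k < 5)
    (h : csup d.1 k = false) : (colL x d).getD k 0 = 0 := by
  obtain ⟨p, u, v, w⟩ := d
  simp only at hd h
  interval_cases p <;> interval_cases k <;> first
    | (exfalso; revert h; decide)
    | simp [colL]

/-- The product of a row and a column. -/
noncomputable def dot (x : ℕ → ℝ) (d e : D) : ℝ :=
  ∑ k ∈ range 5, (rowL x d).getD k 0 * (colL x e).getD k 0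

theorem dot_self (x : ℕ → ℝ) (d : D) (hd : d.1 < 17) : dot x d d = 1 := by
  obtain ⟨p, u, v, w⟩ := d
  simp only at hd
  interval_cases p <;> simp [dot, rowL, colL, Finset.sum_range_succ]

/-- The equation expressed by a description. -/
def Valid (x : ℕ → ℝ) (d : D) : Prop :=
  d.1 < 17 ∧ (d.1 = 14 → x d.2.1 + x d.2.2.1 = x d.2.2.2) ∧
    (d.1 = 15 → x d.2.1 * x d.2.2.1 = x d.2.2.2) ∧ (d.1 = 16 → x d.2.1 = 1)

theorem dot_orth (x : ℕ → ℝ) (d e : D) (hd : Valid x d) (he : Valid x e) (h : Orth d e) :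
    dot x d e = 0 := by
  have hne : oc d.1 e.1 ≠ 0 := by
    rcases h with h | h | h | h <;> omega
  have hm := oc_mem hne
  obtain ⟨p, u, v, w⟩ := d
  obtain ⟨q, i, j, k⟩ := e
  simp only [PL, List.mem_cons, List.not_mem_nil, or_false, Prod.mk.injEq] at hm
  obtain ⟨_, hd1, hd2, hd3⟩ := hd
  obtain ⟨_, he1, he2, he3⟩ := he
  simp only at hd1 hd2 hd3 he1 he2 he3
  rcases hm with ⟨rfl, rfl⟩ | ⟨rfl, rfl⟩ | ⟨rfl, rfl⟩ | ⟨rfl, rfl⟩ | ⟨rfl, rfl⟩ | ⟨rfl, rfl⟩ | ⟨rfl, rfl⟩ | ⟨rfl, rfl⟩ | ⟨rfl, rfl⟩ | ⟨rfl, rfl⟩ | ⟨rfl, rfl⟩ | ⟨rfl, rfl⟩ | ⟨rfl, rfl⟩ | ⟨rfl, rfl⟩ | ⟨rfl, rfl⟩ | ⟨rfl, rfl⟩ | ⟨rfl, rfl⟩ | ⟨rfl, rfl⟩ | ⟨rfl, rfl⟩ | ⟨rfl, rfl⟩ | ⟨rfl, rfl⟩ | ⟨rfl, rfl⟩ | ⟨rfl, rfl⟩ | ⟨rfl, rfl⟩ | ⟨rfl, rfl⟩ | ⟨rfl, rfl⟩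
  all_goals
    simp [Orth, oc, otT] at h
  all_goals
    simp [dot, rowL, colL, Finset.sum_range_succ]
  all_goals
    try subst h
  all_goals
    try simp at hd1 hd2 hd3 he1 he2 he3
  all_goals
    try linarith

end Pool.Agent.X246.CMI
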