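import Pool.Agent.X246.CMI.Red

/-!
# The equations of the bilinear system
-/

set_option autoImplicit false
set_option linter.unusedSimpArgs false

namespace Pool.Agent.X246.CMI

open Pool.Agent.NPC Finset

variable {L : List D} {a b : ℕ → ℕ → ℝ}

theorem s_0 (h : IS L a b) {r v v2 v3 : ℕ} (hr : r < L.length)
    (hd : dget L r = (0, v, v2, v3)) : a r 0 * b r 0 = 1 := by
  have e := h.one r hr
  have z0 := h.rs r hr 1 (by norm_num) (by rw [hd]; rfl)
  have z1 := h.rs r hr 2 (by norm_num) (by rw [hd]; rfl)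
  have z2 := h.rs r hr 3 (by norm_num) (by rw [hd]; rfl)
  have z3 := h.rs r hr 4 (by norm_num) (by rw [hd]; rfl)
  simp only [Finset.sum_range_succ, Finset.sum_range_zero, z0, z1, z2, z3, zero_mul, mul_zero,
    zero_add, add_zero] at e
  exact e

theorem s_1 (h : IS L a b) {r v v2 v3 : ℕ} (hr : r < L.length)
    (hd : dget L r = (1, v, v2, v3)) : a r 0 * b r 0 = 1 := by
  have e := h.one r hr
  have z0 := h.rs r hr 1 (by norm_num) (by rw [hd]; rfl)
  have z1 := h.rs r hr 2 (by norm_num) (by rw [hd]; rfl)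
  have z2 := h.cs r hr 3 (by norm_num) (by rw [hd]; rfl)
  have z3 := h.rs r hr 4 (by norm_num) (by rw [hd]; rfl)
  simp only [Finset.sum_range_succ, Finset.sum_range_zero, z0, z1, z2, z3, zero_mul, mul_zero,
    zero_add, add_zero] at e
  exact e

theorem s_2 (h : IS L a b) {r v v2 v3 : ℕ} (hr : r < L.length)
    (hd : dget L r = (2, v, v2, v3)) : a r 3 * b r 3 = 1 := by
  have e := h.one r hr
  have z0 := h.rs r hr 0 (by norm_num) (by rw [hd]; rfl)
  have z1 := h.cs r hr 1 (by norm_num) (by rw [hd]; rfl)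
  have z2 := h.rs r hr 2 (by norm_num) (by rw [hd]; rfl)
  have z3 := h.rs r hr 4 (by norm_num) (by rw [hd]; rfl)
  simp only [Finset.sum_range_succ, Finset.sum_range_zero, z0, z1, z2, z3, zero_mul, mul_zero,
    zero_add, add_zero] at e
  exact e

theorem s_3 (h : IS L a b) {r v v2 v3 : ℕ} (hr : r < L.length)
    (hd : dget L r = (3, v, v2, v3)) : a r 1 * b r 1 = 1 := by
  have e := h.one r hr
  have z0 := h.rs r hr 0 (by norm_num) (by rw [hd]; rfl)
  have z1 := h.cs r hr 2 (by norm_num) (by rw [hd]; rfl)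
  have z2 := h.rs r hr 3 (by norm_num) (by rw [hd]; rfl)
  have z3 := h.rs r hr 4 (by norm_num) (by rw [hd]; rfl)
  simp only [Finset.sum_range_succ, Finset.sum_range_zero, z0, z1, z2, z3, zero_mul, mul_zero,
    zero_add, add_zero] at e
  exact e

theorem s_4 (h : IS L a b) {r v v2 v3 : ℕ} (hr : r < L.length)
    (hd : dget L r = (4, v, v2, v3)) : a r 2 * b r 2 = 1 := by
  have e := h.one r hr
  have z0 := h.rs r hr 0 (by norm_num) (by rw [hd]; rfl)
  have z1 := h.rs r hr 1 (by norm_num) (by rw [hd]; rfl)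
  have z2 := h.rs r hr 3 (by norm_num) (by rw [hd]; rfl)
  have z3 := h.cs r hr 4 (by norm_num) (by rw [hd]; rfl)
  simp only [Finset.sum_range_succ, Finset.sum_range_zero, z0, z1, z2, z3, zero_mul, mul_zero,
    zero_add, add_zero] at e
  exact e

theorem s_5 (h : IS L a b) {r v v2 v3 : ℕ} (hr : r < L.length)
    (hd : dget L r = (5, v, v2, v3)) : a r 1 * b r 1 = 1 := by
  have e := h.one r hr
  have z0 := h.rs r hr 0 (by norm_num) (by rw [hd]; rfl)
  have z1 := h.rs r hr 2 (by norm_num) (by rw [hd]; rfl)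
  have z2 := h.rs r hr 3 (by norm_num) (by rw [hd]; rfl)
  have z3 := h.rs r hr 4 (by norm_num) (by rw [hd]; rfl)
  simp only [Finset.sum_range_succ, Finset.sum_range_zero, z0, z1, z2, z3, zero_mul, mul_zero,
    zero_add, add_zero] at e
  exact e

theorem s_6 (h : IS L a b) {r v v2 v3 : ℕ} (hr : r < L.length)
    (hd : dget L r = (6, v, v2, v3)) : a r 0 * b r 0 = 1 := by
  have e := h.one r hr
  have z0 := h.rs r hr 1 (by norm_num) (by rw [hd]; rfl)
  have z1 := h.rs r hr 2 (by norm_num) (by rw [hd]; rfl)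
  have z2 := h.rs r hr 3 (by norm_num) (by rw [hd]; rfl)
  have z3 := h.rs r hr 4 (by norm_num) (by rw [hd]; rfl)
  simp only [Finset.sum_range_succ, Finset.sum_range_zero, z0, z1, z2, z3, zero_mul, mul_zero,
    zero_add, add_zero] at e
  exact e

theorem s_7 (h : IS L a b) {r v v2 v3 : ℕ} (hr : r < L.length)
    (hd : dget L r = (7, v, v2, v3)) : a r 0 * b r 0 = 1 := by
  have e := h.one r hr
  have z0 := h.rs r hr 1 (by norm_num) (by rw [hd]; rfl)
  have z1 := h.rs r hr 2 (by norm_num) (by rw [hd]; rfl)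
  have z2 := h.rs r hr 3 (by norm_num) (by rw [hd]; rfl)
  have z3 := h.rs r hr 4 (by norm_num) (by rw [hd]; rfl)
  simp only [Finset.sum_range_succ, Finset.sum_range_zero, z0, z1, z2, z3, zero_mul, mul_zero,
    zero_add, add_zero] at e
  exact e

theorem s_8 (h : IS L a b) {r v v2 v3 : ℕ} (hr : r < L.length)
    (hd : dget L r = (8, v, v2, v3)) : a r 1 * b r 1 = 1 := by
  have e := h.one r hr
  have z0 := h.cs r hr 0 (by norm_num) (by rw [hd]; rfl)
  have z1 := h.rs r hr 2 (by norm_num) (by rw [hd]; rfl)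
  have z2 := h.rs r hr 3 (by norm_num) (by rw [hd]; rfl)
  have z3 := h.rs r hr 4 (by norm_num) (by rw [hd]; rfl)
  simp only [Finset.sum_range_succ, Finset.sum_range_zero, z0, z1, z2, z3, zero_mul, mul_zero,
    zero_add, add_zero] at e
  exact e

theorem s_9 (h : IS L a b) {r v v2 v3 : ℕ} (hr : r < L.length)
    (hd : dget L r = (9, v, v2, v3)) : a r 2 * b r 2 = 1 := by
  have e := h.one r hr
  have z0 := h.cs r hr 0 (by norm_num) (by rw [hd]; rfl)
  have z1 := h.rs r hr 1 (by norm_num) (by rw [hd]; rfl)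
  have z2 := h.rs r hr 3 (by norm_num) (by rw [hd]; rfl)
  have z3 := h.rs r hr 4 (by norm_num) (by rw [hd]; rfl)
  simp only [Finset.sum_range_succ, Finset.sum_range_zero, z0, z1, z2, z3, zero_mul, mul_zero,
    zero_add, add_zero] at e
  exact e

theorem s_10 (h : IS L a b) {r v v2 v3 : ℕ} (hr : r < L.length)
    (hd : dget L r = (10, v, v2, v3)) : a r 4 * b r 4 = 1 := by
  have e := h.one r hr
  have z0 := h.rs r hr 0 (by norm_num) (by rw [hd]; rfl)
  have z1 := h.rs r hr 1 (by norm_num) (by rw [hd]; rfl)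
  have z2 := h.rs r hr 2 (by norm_num) (by rw [hd]; rfl)
  have z3 := h.cs r hr 3 (by norm_num) (by rw [hd]; rfl)
  simp only [Finset.sum_range_succ, Finset.sum_range_zero, z0, z1, z2, z3, zero_mul, mul_zero,
    zero_add, add_zero] at e
  exact e

theorem s_11 (h : IS L a b) {r v v2 v3 : ℕ} (hr : r < L.length)
    (hd : dget L r = (11, v, v2, v3)) : a r 3 * b r 3 = 1 := by
  have e := h.one r hr
  have z0 := h.rs r hr 0 (by norm_num) (by rw [hd]; rfl)
  have z1 := h.rs r hr 1 (by norm_num) (by rw [hd]; rfl)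
  have z2 := h.rs r hr 2 (by norm_num) (by rw [hd]; rfl)
  have z3 := h.rs r hr 4 (by norm_num) (by rw [hd]; rfl)
  simp only [Finset.sum_range_succ, Finset.sum_range_zero, z0, z1, z2, z3, zero_mul, mul_zero,
    zero_add, add_zero] at e
  exact e

theorem s_12 (h : IS L a b) {r v v2 v3 : ℕ} (hr : r < L.length)
    (hd : dget L r = (12, v, v2, v3)) : a r 2 * b r 2 = 1 := by
  have e := h.one r hr
  have z0 := h.rs r hr 0 (by norm_num) (by rw [hd]; rfl)
  have z1 := h.cs r hr 1 (by norm_num) (by rw [hd]; rfl)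
  have z2 := h.rs r hr 3 (by norm_num) (by rw [hd]; rfl)
  have z3 := h.rs r hr 4 (by norm_num) (by rw [hd]; rfl)
  simp only [Finset.sum_range_succ, Finset.sum_range_zero, z0, z1, z2, z3, zero_mul, mul_zero,
    zero_add, add_zero] at e
  exact e

theorem s_13 (h : IS L a b) {r v v2 v3 : ℕ} (hr : r < L.length)
    (hd : dget L r = (13, v, v2, v3)) : a r 1 * b r 1 = 1 := by
  have e := h.one r hr
  have z0 := h.cs r hr 0 (by norm_num) (by rw [hd]; rfl)
  have z1 := h.cs r hr 2 (by norm_num) (by rw [hd]; rfl)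
  have z2 := h.rs r hr 3 (by norm_num) (by rw [hd]; rfl)
  have z3 := h.rs r hr 4 (by norm_num) (by rw [hd]; rfl)
  simp only [Finset.sum_range_succ, Finset.sum_range_zero, z0, z1, z2, z3, zero_mul, mul_zero,
    zero_add, add_zero] at e
  exact e

theorem s_14 (h : IS L a b) {r v v2 v3 : ℕ} (hr : r < L.length)
    (hd : dget L r = (14, v, v2, v3)) : a r 0 * b r 0 = 1 := by
  have e := h.one r hr
  have z0 := h.rs r hr 1 (by norm_num) (by rw [hd]; rfl)
  have z1 := h.rs r hr 2 (by norm_num) (by rw [hd]; rfl)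
  have z2 := h.rs r hr 3 (by norm_num) (by rw [hd]; rfl)
  have z3 := h.rs r hr 4 (by norm_num) (by rw [hd]; rfl)
  simp only [Finset.sum_range_succ, Finset.sum_range_zero, z0, z1, z2, z3, zero_mul, mul_zero,
    zero_add, add_zero] at e
  exact e

theorem s_15 (h : IS L a b) {r v v2 v3 : ℕ} (hr : r < L.length)
    (hd : dget L r = (15, v, v2, v3)) : a r 0 * b r 0 = 1 := by
  have e := h.one r hr
  have z0 := h.rs r hr 1 (by norm_num) (by rw [hd]; rfl)
  have z1 := h.rs r hr 2 (by norm_num) (by rw [hd]; rfl)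
  have z2 := h.rs r hr 3 (by norm_num) (by rw [hd]; rfl)
  have z3 := h.rs r hr 4 (by norm_num) (by rw [hd]; rfl)
  simp only [Finset.sum_range_succ, Finset.sum_range_zero, z0, z1, z2, z3, zero_mul, mul_zero,
    zero_add, add_zero] at e
  exact e

theorem s_16 (h : IS L a b) {r v v2 v3 : ℕ} (hr : r < L.length)
    (hd : dget L r = (16, v, v2, v3)) : a r 1 * b r 1 = 1 := by
  have e := h.one r hr
  have z0 := h.cs r hr 0 (by norm_num) (by rw [hd]; rfl)
  have z1 := h.rs r hr 2 (by norm_num) (by rw [hd]; rfl)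
  have z2 := h.rs r hr 3 (by norm_num) (by rw [hd]; rfl)
  have z3 := h.rs r hr 4 (by norm_num) (by rw [hd]; rfl)
  simp only [Finset.sum_range_succ, Finset.sum_range_zero, z0, z1, z2, z3, zero_mul, mul_zero,
    zero_add, add_zero] at e
  exact e

theorem e_1_0 (h : IS L a b) {r c v v2 v3 i j k : ℕ} (hr : r < L.length) (hc : c < L.length)
    (hdr : dget L r = (1, v, v2, v3)) (hdc : dget L c = (0, i, j, k)) :
    a r 0 * b c 0 + a r 3 * b c 3 = 0 := by
  have e := h.orth r hr c hc (by rw [hdr, hdc]; simp [Orth, oc, otT])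
  have z0 := h.rs r hr 1 (by norm_num) (by rw [hdr]; rfl)
  have z1 := h.rs r hr 2 (by norm_num) (by rw [hdr]; rfl)
  have z2 := h.rs r hr 4 (by norm_num) (by rw [hdr]; rfl)
  simp only [Finset.sum_range_succ, Finset.sum_range_zero, z0, z1, z2, zero_mul, mul_zero,
    zero_add, add_zero] at e
  exact e

theorem e_2_0 (h : IS L a b) {r c v v2 v3 i j k : ℕ} (hr : r < L.length) (hc : c < L.length)
    (hdr : dget L r = (2, v, v2, v3)) (hdc : dget L c = (0, i, j, k)) :
    a r 1 * b c 1 + a r 3 * b c 3 = 0 := by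
  have e := h.orth r hr c hc (by rw [hdr, hdc]; simp [Orth, oc, otT])
  have z0 := h.rs r hr 0 (by norm_num) (by rw [hdr]; rfl)
  have z1 := h.rs r hr 2 (by norm_num) (by rw [hdr]; rfl)
  have z2 := h.rs r hr 4 (by norm_num) (by rw [hdr]; rfl)
  simp only [Finset.sum_range_succ, Finset.sum_range_zero, z0, z1, z2, zero_mul, mul_zero,
    zero_add, add_zero] at e
  exact e

theorem e_3_0 (h : IS L a b) {r c v v2 v3 i j k : ℕ} (hr : r < L.length) (hc : c < L.length)
    (hdr : dget L r = (3, v, v2, v3)) (hdc : dget L c = (0, i, j, k)) :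
    a r 1 * b c 1 + a r 2 * b c 2 = 0 := by
  have e := h.orth r hr c hc (by rw [hdr, hdc]; simp [Orth, oc, otT])
  have z0 := h.rs r hr 0 (by norm_num) (by rw [hdr]; rfl)
  have z1 := h.rs r hr 3 (by norm_num) (by rw [hdr]; rfl)
  have z2 := h.rs r hr 4 (by norm_num) (by rw [hdr]; rfl)
  simp only [Finset.sum_range_succ, Finset.sum_range_zero, z0, z1, z2, zero_mul, mul_zero,
    zero_add, add_zero] at e
  exact e

theorem e_4_0 (h : IS L a b) {r c v v2 v3 i j k : ℕ} (hr : r < L.length) (hc : c < L.length)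
    (hdr : dget L r = (4, v, v2, v3)) (hdc : dget L c = (0, i, j, k)) :
    a r 2 * b c 2 + a r 4 * b c 4 = 0 := by
  have e := h.orth r hr c hc (by rw [hdr, hdc]; simp [Orth, oc, otT])
  have z0 := h.rs r hr 0 (by norm_num) (by rw [hdr]; rfl)
  have z1 := h.rs r hr 1 (by norm_num) (by rw [hdr]; rfl)
  have z2 := h.rs r hr 3 (by norm_num) (by rw [hdr]; rfl)
  simp only [Finset.sum_range_succ, Finset.sum_range_zero, z0, z1, z2, zero_mul, mul_zero,
    zero_add, add_zero] at e
  exact e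

theorem e_3_5 (h : IS L a b) {r c v v2 v3 i j k : ℕ} (hr : r < L.length) (hc : c < L.length)
    (hdr : dget L r = (3, v, v2, v3)) (hdc : dget L c = (5, i, j, k)) :
    a r 1 * b c 1 + a r 2 * b c 2 = 0 := by
  have e := h.orth r hr c hc (by rw [hdr, hdc]; simp [Orth, oc, otT])
  have z0 := h.rs r hr 0 (by norm_num) (by rw [hdr]; rfl)
  have z1 := h.rs r hr 3 (by norm_num) (by rw [hdr]; rfl)
  have z2 := h.rs r hr 4 (by norm_num) (by rw [hdr]; rfl)
  simp only [Finset.sum_range_succ, Finset.sum_range_zero, z0, z1, z2, zero_mul, mul_zero,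
    zero_add, add_zero] at e
  exact e

theorem e_1_6 (h : IS L a b) {r c v v2 v3 i j k : ℕ} (hr : r < L.length) (hc : c < L.length)
    (hdr : dget L r = (1, v, v2, v3)) (hdc : dget L c = (6, i, j, k)) :
    a r 0 * b c 0 + a r 3 * b c 3 = 0 := by
  have e := h.orth r hr c hc (by rw [hdr, hdc]; simp [Orth, oc, otT])
  have z0 := h.rs r hr 1 (by norm_num) (by rw [hdr]; rfl)
  have z1 := h.rs r hr 2 (by norm_num) (by rw [hdr]; rfl)
  have z2 := h.rs r hr 4 (by norm_num) (by rw [hdr]; rfl)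
  simp only [Finset.sum_range_succ, Finset.sum_range_zero, z0, z1, z2, zero_mul, mul_zero,
    zero_add, add_zero] at e
  exact e

theorem e_3_6 (h : IS L a b) {r c v v2 v3 i j k : ℕ} (hr : r < L.length) (hc : c < L.length)
    (hdr : dget L r = (3, v, v2, v3)) (hdc : dget L c = (6, i, j, k)) :
    a r 1 * b c 1 + a r 2 * b c 2 = 0 := by
  have e := h.orth r hr c hc (by rw [hdr, hdc]; simp [Orth, oc, otT])
  have z0 := h.rs r hr 0 (by norm_num) (by rw [hdr]; rfl)
  have z1 := h.rs r hr 3 (by norm_num) (by rw [hdr]; rfl)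
  have z2 := h.rs r hr 4 (by norm_num) (by rw [hdr]; rfl)
  simp only [Finset.sum_range_succ, Finset.sum_range_zero, z0, z1, z2, zero_mul, mul_zero,
    zero_add, add_zero] at e
  exact e

theorem e_4_6 (h : IS L a b) {r c v v2 v3 i j k : ℕ} (hr : r < L.length) (hc : c < L.length)
    (hdr : dget L r = (4, v, v2, v3)) (hdc : dget L c = (6, i, j, k)) :
    a r 2 * b c 2 + a r 4 * b c 4 = 0 := by
  have e := h.orth r hr c hc (by rw [hdr, hdc]; simp [Orth, oc, otT])
  have z0 := h.rs r hr 0 (by norm_num) (by rw [hdr]; rfl)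
  have z1 := h.rs r hr 1 (by norm_num) (by rw [hdr]; rfl)
  have z2 := h.rs r hr 3 (by norm_num) (by rw [hdr]; rfl)
  simp only [Finset.sum_range_succ, Finset.sum_range_zero, z0, z1, z2, zero_mul, mul_zero,
    zero_add, add_zero] at e
  exact e

theorem e_2_11 (h : IS L a b) {r c v v2 v3 i j k : ℕ} (hr : r < L.length) (hc : c < L.length)
    (hdr : dget L r = (2, v, v2, v3)) (hdc : dget L c = (11, i, j, k)) :
    a r 1 * b c 1 + a r 3 * b c 3 = 0 := by
  have e := h.orth r hr c hc (by rw [hdr, hdc]; simp [Orth, oc, otT])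
  have z0 := h.rs r hr 0 (by norm_num) (by rw [hdr]; rfl)
  have z1 := h.rs r hr 2 (by norm_num) (by rw [hdr]; rfl)
  have z2 := h.rs r hr 4 (by norm_num) (by rw [hdr]; rfl)
  simp only [Finset.sum_range_succ, Finset.sum_range_zero, z0, z1, z2, zero_mul, mul_zero,
    zero_add, add_zero] at e
  exact e

theorem e_4_11 (h : IS L a b) {r c v v2 v3 i j k : ℕ} (hr : r < L.length) (hc : c < L.length)
    (hdr : dget L r = (4, v, v2, v3)) (hdc : dget L c = (11, i, j, k)) :
    a r 2 * b c 2 + a r 4 * b c 4 = 0 := by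
  have e := h.orth r hr c hc (by rw [hdr, hdc]; simp [Orth, oc, otT])
  have z0 := h.rs r hr 0 (by norm_num) (by rw [hdr]; rfl)
  have z1 := h.rs r hr 1 (by norm_num) (by rw [hdr]; rfl)
  have z2 := h.rs r hr 3 (by norm_num) (by rw [hdr]; rfl)
  simp only [Finset.sum_range_succ, Finset.sum_range_zero, z0, z1, z2, zero_mul, mul_zero,
    zero_add, add_zero] at e
  exact e

theorem e_8_6 (h : IS L a b) {r c v v2 v3 j k : ℕ} (hr : r < L.length) (hc : c < L.length)
    (hdr : dget L r = (8, v, v2, v3)) (hdc : dget L c = (6, v, j, k)) :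
    a r 0 * b c 0 + a r 1 * b c 1 = 0 := by
  have e := h.orth r hr c hc (by rw [hdr, hdc]; simp [Orth, oc, otT])
  have z0 := h.rs r hr 2 (by norm_num) (by rw [hdr]; rfl)
  have z1 := h.rs r hr 3 (by norm_num) (by rw [hdr]; rfl)
  have z2 := h.rs r hr 4 (by norm_num) (by rw [hdr]; rfl)
  simp only [Finset.sum_range_succ, Finset.sum_range_zero, z0, z1, z2, zero_mul, mul_zero,
    zero_add, add_zero] at e
  exact e

theorem e_8_7 (h : IS L a b) {r c v v2 v3 j k : ℕ} (hr : r < L.length) (hc : c < L.length)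
    (hdr : dget L r = (8, v, v2, v3)) (hdc : dget L c = (7, v, j, k)) :
    a r 0 * b c 0 + a r 1 * b c 1 = 0 := by
  have e := h.orth r hr c hc (by rw [hdr, hdc]; simp [Orth, oc, otT])
  have z0 := h.rs r hr 2 (by norm_num) (by rw [hdr]; rfl)
  have z1 := h.rs r hr 3 (by norm_num) (by rw [hdr]; rfl)
  have z2 := h.rs r hr 4 (by norm_num) (by rw [hdr]; rfl)
  simp only [Finset.sum_range_succ, Finset.sum_range_zero, z0, z1, z2, zero_mul, mul_zero,
    zero_add, add_zero] at e
  exact e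

theorem e_8_14 (h : IS L a b) {r c v v2 v3 i j : ℕ} (hr : r < L.length) (hc : c < L.length)
    (hdr : dget L r = (8, v, v2, v3)) (hdc : dget L c = (14, i, j, v)) :
    a r 0 * b c 0 + a r 1 * b c 1 = 0 := by
  have e := h.orth r hr c hc (by rw [hdr, hdc]; simp [Orth, oc, otT])
  have z0 := h.rs r hr 2 (by norm_num) (by rw [hdr]; rfl)
  have z1 := h.rs r hr 3 (by norm_num) (by rw [hdr]; rfl)
  have z2 := h.rs r hr 4 (by norm_num) (by rw [hdr]; rfl)
  simp only [Finset.sum_range_succ, Finset.sum_range_zero, z0, z1, z2, zero_mul, mul_zero,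
    zero_add, add_zero] at e
  exact e

theorem e_8_15 (h : IS L a b) {r c v v2 v3 j k : ℕ} (hr : r < L.length) (hc : c < L.length)
    (hdr : dget L r = (8, v, v2, v3)) (hdc : dget L c = (15, v, j, k)) :
    a r 0 * b c 0 + a r 1 * b c 1 = 0 := by
  have e := h.orth r hr c hc (by rw [hdr, hdc]; simp [Orth, oc, otT])
  have z0 := h.rs r hr 2 (by norm_num) (by rw [hdr]; rfl)
  have z1 := h.rs r hr 3 (by norm_num) (by rw [hdr]; rfl)
  have z2 := h.rs r hr 4 (by norm_num) (by rw [hdr]; rfl)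
  simp only [Finset.sum_range_succ, Finset.sum_range_zero, z0, z1, z2, zero_mul, mul_zero,
    zero_add, add_zero] at e
  exact e

theorem e_9_6 (h : IS L a b) {r c v v2 v3 j k : ℕ} (hr : r < L.length) (hc : c < L.length)
    (hdr : dget L r = (9, v, v2, v3)) (hdc : dget L c = (6, v, j, k)) :
    a r 0 * b c 0 + a r 2 * b c 2 = 0 := by
  have e := h.orth r hr c hc (by rw [hdr, hdc]; simp [Orth, oc, otT])
  have z0 := h.rs r hr 1 (by norm_num) (by rw [hdr]; rfl)
  have z1 := h.rs r hr 3 (by norm_num) (by rw [hdr]; rfl)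
  have z2 := h.rs r hr 4 (by norm_num) (by rw [hdr]; rfl)
  simp only [Finset.sum_range_succ, Finset.sum_range_zero, z0, z1, z2, zero_mul, mul_zero,
    zero_add, add_zero] at e
  exact e

theorem e_9_14 (h : IS L a b) {r c v v2 v3 i k : ℕ} (hr : r < L.length) (hc : c < L.length)
    (hdr : dget L r = (9, v, v2, v3)) (hdc : dget L c = (14, i, v, k)) :
    a r 0 * b c 0 + a r 2 * b c 2 = 0 := by
  have e := h.orth r hr c hc (by rw [hdr, hdc]; simp [Orth, oc, otT])
  have z0 := h.rs r hr 1 (by norm_num) (by rw [hdr]; rfl)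
  have z1 := h.rs r hr 3 (by norm_num) (by rw [hdr]; rfl)
  have z2 := h.rs r hr 4 (by norm_num) (by rw [hdr]; rfl)
  simp only [Finset.sum_range_succ, Finset.sum_range_zero, z0, z1, z2, zero_mul, mul_zero,
    zero_add, add_zero] at e
  exact e

theorem e_9_15 (h : IS L a b) {r c v v2 v3 i j : ℕ} (hr : r < L.length) (hc : c < L.length)
    (hdr : dget L r = (9, v, v2, v3)) (hdc : dget L c = (15, i, j, v)) :
    a r 0 * b c 0 + a r 2 * b c 2 = 0 := by
  have e := h.orth r hr c hc (by rw [hdr, hdc]; simp [Orth, oc, otT])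
  have z0 := h.rs r hr 1 (by norm_num) (by rw [hdr]; rfl)
  have z1 := h.rs r hr 3 (by norm_num) (by rw [hdr]; rfl)
  have z2 := h.rs r hr 4 (by norm_num) (by rw [hdr]; rfl)
  simp only [Finset.sum_range_succ, Finset.sum_range_zero, z0, z1, z2, zero_mul, mul_zero,
    zero_add, add_zero] at e
  exact e

theorem e_10_6 (h : IS L a b) {r c v v2 v3 j k : ℕ} (hr : r < L.length) (hc : c < L.length)
    (hdr : dget L r = (10, v, v2, v3)) (hdc : dget L c = (6, v, j, k)) :
    a r 3 * b c 3 + a r 4 * b c 4 = 0 := by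
  have e := h.orth r hr c hc (by rw [hdr, hdc]; simp [Orth, oc, otT])
  have z0 := h.rs r hr 0 (by norm_num) (by rw [hdr]; rfl)
  have z1 := h.rs r hr 1 (by norm_num) (by rw [hdr]; rfl)
  have z2 := h.rs r hr 2 (by norm_num) (by rw [hdr]; rfl)
  simp only [Finset.sum_range_succ, Finset.sum_range_zero, z0, z1, z2, zero_mul, mul_zero,
    zero_add, add_zero] at e
  exact e

theorem e_10_11 (h : IS L a b) {r c v v2 v3 j k : ℕ} (hr : r < L.length) (hc : c < L.length)
    (hdr : dget L r = (10, v, v2, v3)) (hdc : dget L c = (11, v, j, k)) :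
    a r 3 * b c 3 + a r 4 * b c 4 = 0 := by
  have e := h.orth r hr c hc (by rw [hdr, hdc]; simp [Orth, oc, otT])
  have z0 := h.rs r hr 0 (by norm_num) (by rw [hdr]; rfl)
  have z1 := h.rs r hr 1 (by norm_num) (by rw [hdr]; rfl)
  have z2 := h.rs r hr 2 (by norm_num) (by rw [hdr]; rfl)
  simp only [Finset.sum_range_succ, Finset.sum_range_zero, z0, z1, z2, zero_mul, mul_zero,
    zero_add, add_zero] at e
  exact e

theorem e_12_11 (h : IS L a b) {r c v v2 v3 j k : ℕ} (hr : r < L.length) (hc : c < L.length)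
    (hdr : dget L r = (12, v, v2, v3)) (hdc : dget L c = (11, v, j, k)) :
    a r 1 * b c 1 + a r 2 * b c 2 = 0 := by
  have e := h.orth r hr c hc (by rw [hdr, hdc]; simp [Orth, oc, otT])
  have z0 := h.rs r hr 0 (by norm_num) (by rw [hdr]; rfl)
  have z1 := h.rs r hr 3 (by norm_num) (by rw [hdr]; rfl)
  have z2 := h.rs r hr 4 (by norm_num) (by rw [hdr]; rfl)
  simp only [Finset.sum_range_succ, Finset.sum_range_zero, z0, z1, z2, zero_mul, mul_zero,
    zero_add, add_zero] at e
  exact e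

theorem e_12_15 (h : IS L a b) {r c v v2 v3 i k : ℕ} (hr : r < L.length) (hc : c < L.length)
    (hdr : dget L r = (12, v, v2, v3)) (hdc : dget L c = (15, i, v, k)) :
    a r 1 * b c 1 + a r 2 * b c 2 = 0 := by
  have e := h.orth r hr c hc (by rw [hdr, hdc]; simp [Orth, oc, otT])
  have z0 := h.rs r hr 0 (by norm_num) (by rw [hdr]; rfl)
  have z1 := h.rs r hr 3 (by norm_num) (by rw [hdr]; rfl)
  have z2 := h.rs r hr 4 (by norm_num) (by rw [hdr]; rfl)
  simp only [Finset.sum_range_succ, Finset.sum_range_zero, z0, z1, z2, zero_mul, mul_zero,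
    zero_add, add_zero] at e
  exact e

theorem e_13_5 (h : IS L a b) {r c v v2 v3 i j k : ℕ} (hr : r < L.length) (hc : c < L.length)
    (hdr : dget L r = (13, v, v2, v3)) (hdc : dget L c = (5, i, j, k)) :
    a r 1 * b c 1 + a r 2 * b c 2 = 0 := by
  have e := h.orth r hr c hc (by rw [hdr, hdc]; simp [Orth, oc, otT])
  have z0 := h.cs c hc 0 (by norm_num) (by rw [hdc]; rfl)
  have z1 := h.rs r hr 3 (by norm_num) (by rw [hdr]; rfl)
  have z2 := h.rs r hr 4 (by norm_num) (by rw [hdr]; rfl)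
  simp only [Finset.sum_range_succ, Finset.sum_range_zero, z0, z1, z2, zero_mul, mul_zero,
    zero_add, add_zero] at e
  exact e

theorem e_13_7 (h : IS L a b) {r c v v2 v3 j k : ℕ} (hr : r < L.length) (hc : c < L.length)
    (hdr : dget L r = (13, v, v2, v3)) (hdc : dget L c = (7, v, j, k)) :
    a r 0 * b c 0 + a r 1 * b c 1 = 0 := by
  have e := h.orth r hr c hc (by rw [hdr, hdc]; simp [Orth, oc, otT])
  have z0 := h.cs c hc 2 (by norm_num) (by rw [hdc]; rfl)
  have z1 := h.rs r hr 3 (by norm_num) (by rw [hdr]; rfl)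
  have z2 := h.rs r hr 4 (by norm_num) (by rw [hdr]; rfl)
  simp only [Finset.sum_range_succ, Finset.sum_range_zero, z0, z1, z2, zero_mul, mul_zero,
    zero_add, add_zero] at e
  exact e

theorem e_13_14 (h : IS L a b) {r c v v2 v3 j k : ℕ} (hr : r < L.length) (hc : c < L.length)
    (hdr : dget L r = (13, v, v2, v3)) (hdc : dget L c = (14, v, j, k)) :
    a r 0 * b c 0 + a r 1 * b c 1 + a r 2 * b c 2 = 0 := by
  have e := h.orth r hr c hc (by rw [hdr, hdc]; simp [Orth, oc, otT])
  have z0 := h.rs r hr 3 (by norm_num) (by rw [hdr]; rfl)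
  have z1 := h.rs r hr 4 (by norm_num) (by rw [hdr]; rfl)
  simp only [Finset.sum_range_succ, Finset.sum_range_zero, z0, z1, zero_mul, mul_zero,
    zero_add, add_zero] at e
  exact e

theorem e_16_6 (h : IS L a b) {r c v v2 v3 j k : ℕ} (hr : r < L.length) (hc : c < L.length)
    (hdr : dget L r = (16, v, v2, v3)) (hdc : dget L c = (6, v, j, k)) :
    a r 0 * b c 0 + a r 1 * b c 1 = 0 := by
  have e := h.orth r hr c hc (by rw [hdr, hdc]; simp [Orth, oc, otT])
  have z0 := h.rs r hr 2 (by norm_num) (by rw [hdr]; rfl)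
  have z1 := h.rs r hr 3 (by norm_num) (by rw [hdr]; rfl)
  have z2 := h.rs r hr 4 (by norm_num) (by rw [hdr]; rfl)
  simp only [Finset.sum_range_succ, Finset.sum_range_zero, z0, z1, z2, zero_mul, mul_zero,
    zero_add, add_zero] at e
  exact e

theorem e_16_0 (h : IS L a b) {r c v v2 v3 i j k : ℕ} (hr : r < L.length) (hc : c < L.length)
    (hdr : dget L r = (16, v, v2, v3)) (hdc : dget L c = (0, i, j, k)) :
    a r 0 * b c 0 + a r 1 * b c 1 = 0 := by
  have e := h.orth r hr c hc (by rw [hdr, hdc]; simp [Orth, oc, otT])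
  have z0 := h.rs r hr 2 (by norm_num) (by rw [hdr]; rfl)
  have z1 := h.rs r hr 3 (by norm_num) (by rw [hdr]; rfl)
  have z2 := h.rs r hr 4 (by norm_num) (by rw [hdr]; rfl)
  simp only [Finset.sum_range_succ, Finset.sum_range_zero, z0, z1, z2, zero_mul, mul_zero,
    zero_add, add_zero] at e
  exact e

end Pool.Agent.X246.CMI
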