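import Mathlib

/-!
# Completing a pair of rectangular matrices to a pair of inverse square matrices
-/

set_option autoImplicit false

namespace Pool.Agent.X246.CMI

/-- If `A` is `m × n`, `B` is `n × m` and `A B = 1`, then `A` is the top of a square matrix and
`B` is the left part of its inverse. -/
theorem complete {m n : ℕ} (A : Matrix (Fin m) (Fin n) ℝ) (B : Matrix (Fin n) (Fin m) ℝ)
    (h : A * B = 1) : ∃ A' B' : Matrix (Fin n) (Fin n) ℝ, A' * B' = 1 ∧
      (∀ (i : Fin n) (hi : (i : ℕ) < m) (k : Fin n), A' i k = A ⟨i, hi⟩ k) ∧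
      (∀ (j : Fin n) (hj : (j : ℕ) < m) (k : Fin n), B' k j = B k ⟨j, hj⟩) := by
  classical
  have hsurj : Function.Surjective A.mulVecLin := by
    intro v
    refine ⟨B.mulVec v, ?_⟩
    rw [Matrix.mulVecLin_apply, Matrix.mulVec_mulVec, h, Matrix.one_mulVec]
  have hrk : Module.finrank ℝ (LinearMap.ker A.mulVecLin) + m = n := by
    have h1 := LinearMap.finrank_range_add_finrank_ker A.mulVecLin
    rw [LinearMap.range_eq_top.2 hsurj, finrank_top] at h1
    simp only [Module.finrank_fintype_fun_eq_card, Fintype.card_fin] at h1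
    omega
  obtain ⟨t, ht⟩ : ∃ t, Module.finrank ℝ (LinearMap.ker A.mulVecLin) = t := ⟨_, rfl⟩
  have hmn : m + t = n := by omega
  let K : Module.Basis (Fin t) ℝ (LinearMap.ker A.mulVecLin) := Module.finBasisOfFinrankEq ℝ _ ht
  let e : Fin m ⊕ Fin t ≃ Fin n := finSumFinEquiv.trans (finCongr hmn)
  let B' : Matrix (Fin n) (Fin n) ℝ := fun k j =>
    Sum.elim (fun j' => B k j') (fun j' => (K j' : Fin n → ℝ) k) (e.symm j)
  have hinj : Function.Injective B'.mulVec := by
    rw [← Matrix.coe_mulVecLin, ← LinearMap.ker_eq_bot, LinearMap.ker_eq_bot']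
    intro v hv
    rw [Matrix.mulVecLin_apply] at hv
    have h1 : B'.mulVec v = B.mulVec (fun j => v (e (Sum.inl j))) +
        ((∑ j, v (e (Sum.inr j)) • K j : LinearMap.ker A.mulVecLin) : Fin n → ℝ) := by
      funext k
      have h2 : (B'.mulVec v) k = ∑ s : Fin m ⊕ Fin t, B' k (e s) * v (e s) := by
        rw [Matrix.mulVec, dotProduct]
        exact (Equiv.sum_comp e (fun j => B' k j * v j)).symm
      rw [h2, Fintype.sum_sum_type]
      simp only [B', Equiv.symm_apply_apply, Sum.elim_inl, Sum.elim_inr, Pi.add_apply,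
        Submodule.coe_sum, Submodule.coe_smul, Finset.sum_apply, Pi.smul_apply, smul_eq_mul]
      congr 1
      refine Finset.sum_congr rfl fun j _ => ?_
      ring
    have h3 : A.mulVec (B'.mulVec v) = fun j => v (e (Sum.inl j)) := by
      rw [h1, Matrix.mulVec_add, Matrix.mulVec_mulVec, h, Matrix.one_mulVec]
      have h4 := (∑ j, v (e (Sum.inr j)) • K j : LinearMap.ker A.mulVecLin).2
      rw [LinearMap.mem_ker, Matrix.mulVecLin_apply] at h4
      rw [h4, add_zero]
    have h5 : ∀ j, v (e (Sum.inl j)) = 0 := by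
      intro j
      have := congrFun h3 j
      rw [hv, Matrix.mulVec_zero] at this
      simpa using this.symm
    have h6 : (∑ j, v (e (Sum.inr j)) • K j : LinearMap.ker A.mulVecLin) = 0 := by
      apply Subtype.ext
      have h7 : (fun j => v (e (Sum.inl j))) = 0 := funext h5
      rw [hv, h7, Matrix.mulVec_zero, zero_add] at h1
      exact h1.symm
    have h8 : ∀ j, v (e (Sum.inr j)) = 0 := by
      intro j
      exact Fintype.linearIndependent_iff.1 K.linearIndependent (fun j => v (e (Sum.inr j))) h6 j
    funext j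
    obtain ⟨s, rfl⟩ := e.surjective j
    rcases s with s | s
    · exact h5 s
    · exact h8 s
  have hu : IsUnit B' := Matrix.mulVec_injective_iff_isUnit.1 hinj
  have hdet : IsUnit B'.det := (Matrix.isUnit_iff_isUnit_det B').1 hu
  refine ⟨B'⁻¹, B', Matrix.nonsing_inv_mul B' hdet, ?_, ?_⟩
  · -- the first rows of the inverse
    have hAB : ∀ (i : Fin m) (j : Fin n), (A * B') i j =
        Sum.elim (fun j' => (1 : Matrix (Fin m) (Fin m) ℝ) i j') (fun _ => 0) (e.symm j) := by
      intro i j
      obtain ⟨s, rfl⟩ := e.surjective j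
      rw [Equiv.symm_apply_apply]
      rcases s with s | s
      · rw [Sum.elim_inl, ← h, Matrix.mul_apply, Matrix.mul_apply]
        refine Finset.sum_congr rfl fun k _ => ?_
        simp [B']
      · rw [Sum.elim_inr]
        have h4 := (K s).2
        rw [LinearMap.mem_ker, Matrix.mulVecLin_apply] at h4
        have h9 := congrFun h4 i
        rw [Matrix.mul_apply]
        refine Eq.trans ?_ h9
        simp [B', Matrix.mulVec, dotProduct]
    let P : Matrix (Fin m) (Fin n) ℝ := fun i j =>
      Sum.elim (fun j' => (1 : Matrix (Fin m) (Fin m) ℝ) i j') (fun _ => 0) (e.symm j)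
    have hP : A * B' = P := by ext i j; exact hAB i j
    have hA : A = P * B'⁻¹ := by
      rw [← hP, Matrix.mul_assoc, Matrix.mul_nonsing_inv B' hdet, Matrix.mul_one]
    intro i hi k
    rw [hA, Matrix.mul_apply]
    have hei : e.symm i = Sum.inl ⟨i, hi⟩ := by
      rw [Equiv.symm_apply_eq]
      apply Fin.ext
      simp [e]
    rw [Finset.sum_eq_single i]
    · simp [P, hei]
    · intro j _ hji
      have : P ⟨i, hi⟩ j = 0 := by
        simp only [P]
        obtain ⟨s, rfl⟩ := e.surjective j
        rw [Equiv.symm_apply_apply]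
        rcases s with s | s
        · rw [Sum.elim_inl, Matrix.one_apply_ne]
          rintro rfl
          apply hji
          rw [← hei, Equiv.apply_symm_apply]
        · rfl
      rw [this, zero_mul]
    · intro hni
      exact absurd (Finset.mem_univ _) hni
  · intro j hj k
    have hej : e.symm j = Sum.inl ⟨j, hj⟩ := by
      rw [Equiv.symm_apply_eq]
      apply Fin.ext
      simp [e]
    simp [B', hej]

end Pool.Agent.X246.CMI
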