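import Pool.Agent.X246.CMI.Comp

/-!
# Constrained matrix invertibility over the reals: correctness of the reduction
-/

set_option autoImplicit false

namespace Pool.Agent.X246.CMI

open Pool.Agent.NPC Finset

/-- `P` is the table of an `n × n` zero pattern (`true` stands for `*`, `false` for `0`). -/
def IsPattern (n : ℕ) (P : List (List Bool)) : Prop := P.length = n ∧ ∀ r ∈ P, r.length = n

/-- The matrix `M` fits the zero pattern `P`. -/
def Fits (P : List (List Bool)) {n : ℕ} (M : Matrix (Fin n) (Fin n) ℝ) : Prop :=
  ∀ i j : Fin n, (P.getD i []).getD j false = false → M i j = 0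

/-- Constrained matrix invertibility over `ℝ`: given two `n × n` zero patterns, are there real
matrices `A`, `B` that fit them with `A B = 1`? -/
def CMInv (I : List (List Bool) × List (List Bool)) : Prop :=
  ∃ n, IsPattern n I.1 ∧ IsPattern n I.2 ∧
    ∃ A B : Matrix (Fin n) (Fin n) ℝ, Fits I.1 A ∧ Fits I.2 B ∧ A * B = 1

theorem fits_tab {n : ℕ} (f : ℕ → ℕ → Bool) (M : Matrix (Fin n) (Fin n) ℝ) :
    Fits (tab n f) M ↔ ∀ i j : Fin n, f i j = false → M i j = 0 := by
  unfold Fits
  refine forall_congr' fun i => forall_congr' fun j => ?_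
  rw [tab_getD i.2 j.2]

theorem length_tab (n : ℕ) (f : ℕ → ℕ → Bool) : (tab n f).length = n := by simp [tab]

theorem isPattern_tab (n : ℕ) (f : ℕ → ℕ → Bool) : IsPattern n (tab n f) := by
  refine ⟨length_tab n f, fun r h => ?_⟩
  unfold tab at h
  rw [List.mem_map] at h
  obtain ⟨i, _, rfl⟩ := h
  simp

/-- The size of the matrices. -/
def size (L : List D) : ℕ := 5 + L.length * L.length

/-- The reduction. -/
def red (S : List ER.Con) : List (List Bool) × List (List Bool) :=
  (tab (size (descs S)) (entA (descs S)), tab (size (descs S)) (entB (descs S)))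

theorem valid_descs {S : List ER.Con} {x : ℕ → ℝ} (hx : ER.SysHolds x S) :
    ∀ d ∈ descs S, Valid x d := by
  intro d hd
  unfold descs at hd
  rw [List.mem_append] at hd
  rcases hd with hd | hd
  · simp only [glob, List.mem_cons, List.not_mem_nil, or_false] at hd
    rcases hd with rfl | rfl | rfl | rfl | rfl | rfl <;> simp [Valid]
  · rw [List.mem_flatMap] at hd
    obtain ⟨c, hc, hd⟩ := hd
    have hv : ∀ v, d ∈ varD v → Valid x d := by
      intro v hd
      simp only [varD, List.mem_cons, List.not_mem_nil, or_false] at hd
      rcases hd with rfl | rfl | rfl | rfl | rfl | rfl | rfl | rfl <;> simp [Valid]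
    unfold conD at hd
    rw [List.mem_append, List.mem_append, List.mem_append, List.mem_singleton] at hd
    rcases hd with hd | hd | hd | hd
    · exact hv _ hd
    · exact hv _ hd
    · exact hv _ hd
    · have h1 := hx c hc
      subst hd
      cases c <;> simp [ER.Con.code, ER.Con.Holds, Valid] at h1 ⊢ <;> exact h1

/-- Entries of the rows. -/
noncomputable def fA (x : ℕ → ℝ) (L : List D) (i k : ℕ) : ℝ :=
  if k < 5 then (rowL x (dget L i)).getD k 0
  else if (k - 5) / L.length = i ∧ Free L i ((k - 5) % L.length) then 1 else 0

/-- Entries of the columns. -/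
noncomputable def fB (x : ℕ → ℝ) (L : List D) (k j : ℕ) : ℝ :=
  if k < 5 then (colL x (dget L j)).getD k 0
  else if (k - 5) % L.length = j ∧ Free L ((k - 5) / L.length) j then
    - dot x (dget L ((k - 5) / L.length)) (dget L j) else 0

theorem sum_fA_fB (x : ℕ → ℝ) (L : List D) {i j : ℕ} (hi : i < L.length) (hj : j < L.length) :
    ∑ k ∈ range (size L), fA x L i k * fB x L k j =
      if Free L i j then 0 else dot x (dget L i) (dget L j) := by
  have hm : 0 < L.length := by omega
  unfold size
  rw [Finset.sum_range_add]
  have h1 : ∑ k ∈ range 5, fA x L i k * fB x L k j = dot x (dget L i) (dget L j) := by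
    unfold dot
    refine Finset.sum_congr rfl fun k hk => ?_
    rw [Finset.mem_range] at hk
    rw [fA, fB, if_pos hk, if_pos hk]
  have h2 : ∑ p ∈ range (L.length * L.length), fA x L i (5 + p) * fB x L (5 + p) j =
      if Free L i j then - dot x (dget L i) (dget L j) else 0 := by
    have hterm : ∀ p, fA x L i (5 + p) * fB x L (5 + p) j =
        if (p / L.length = i ∧ p % L.length = j) ∧ Free L i j then
          - dot x (dget L i) (dget L j) else 0 := by
      intro p
      have hA5 : fA x L i (5 + p) =
          if p / L.length = i ∧ Free L i (p % L.length) then 1 else 0 := by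
        unfold fA
        rw [if_neg (by omega), Nat.add_sub_cancel_left]
      have hB5 : fB x L (5 + p) j =
          if p % L.length = j ∧ Free L (p / L.length) j then
            - dot x (dget L (p / L.length)) (dget L j) else 0 := by
        unfold fB
        rw [if_neg (by omega), Nat.add_sub_cancel_left]
      rw [hA5, hB5]
      by_cases e1 : p / L.length = i
      · by_cases e2 : p % L.length = j
        · rw [e1, e2]
          by_cases h4 : Free L i j <;> simp [h4]
        · simp [e2]
      · simp [e1]
    simp only [hterm]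
    by_cases h4 : Free L i j
    · rw [if_pos h4, Finset.sum_eq_single (j + i * L.length)]
      · have e1 : (j + i * L.length) / L.length = i := by
          rw [Nat.add_mul_div_right _ _ hm, Nat.div_eq_of_lt hj, zero_add]
        have e2 : (j + i * L.length) % L.length = j := by
          rw [Nat.add_mul_mod_self_right, Nat.mod_eq_of_lt hj]
        rw [if_pos ⟨⟨e1, e2⟩, h4⟩]
      · intro p _ hp
        rw [if_neg]
        rintro ⟨⟨e1, e2⟩, _⟩
        apply hp
        rw [← Nat.mod_add_div p L.length, e1, e2, Nat.mul_comm]
      · intro hn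
        exfalso
        apply hn
        rw [Finset.mem_range]
        nlinarith
    · simp [h4]
  rw [h1, h2]
  by_cases h4 : Free L i j
  · simp [h4]
  · simp [h4]

/-- Completeness of the reduction. -/
theorem comp {S : List ER.Con} (h : ER.Sat S) :
    ∃ A B : Matrix (Fin (size (descs S))) (Fin (size (descs S))) ℝ,
      (∀ i k : Fin (size (descs S)), entA (descs S) i k = false → A i k = 0) ∧
      (∀ k j : Fin (size (descs S)), entB (descs S) k j = false → B k j = 0) ∧ A * B = 1 := by
  obtain ⟨x, hx⟩ := h
  obtain ⟨L, hL⟩ : ∃ L, L = descs S := ⟨_, rfl⟩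
  have hvalid : ∀ d ∈ L, Valid x d := by rw [hL]; exact valid_descs hx
  rw [← hL]
  have hV : ∀ i < L.length, Valid x (dget L i) := by
    intro i hi
    apply hvalid
    rw [dget, List.getD_eq_getElem _ _ hi]
    exact List.getElem_mem hi
  let AR : Matrix (Fin L.length) (Fin (size L)) ℝ := fun i k => fA x L i k
  let BC : Matrix (Fin (size L)) (Fin L.length) ℝ := fun k j => fB x L k j
  have hAB : AR * BC = 1 := by
    ext i j
    rw [Matrix.mul_apply]
    change ∑ k : Fin (size L), fA x L i k * fB x L k j = _
    rw [Fin.sum_univ_eq_sum_range (fun k => fA x L i k * fB x L k j), sum_fA_fB x L i.2 j.2]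
    by_cases h4 : Free L i j
    · rw [if_pos h4, Matrix.one_apply_ne]
      rintro rfl
      exact h4 (Or.inl rfl)
    · rw [if_neg h4]
      unfold Free at h4
      rw [not_not] at h4
      by_cases hij : i = j
      · subst hij
        rw [Matrix.one_apply_eq]
        exact dot_self x _ (hV i i.2).1
      · rw [Matrix.one_apply_ne hij]
        rcases h4 with h4 | h4
        · exact absurd (Fin.ext h4) hij
        · exact dot_orth x _ _ (hV i i.2) (hV j j.2) h4
  obtain ⟨A, B, h1, h2, h3⟩ := complete AR BC hAB
  refine ⟨A, B, ?_, ?_, h1⟩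
  · intro i k hik
    unfold entA at hik
    by_cases hi : (i : ℕ) < L.length
    · rw [if_pos hi] at hik
      rw [h2 i hi k]
      change fA x L i k = 0
      unfold fA
      by_cases hk : (k : ℕ) < 5
      · rw [if_pos hk] at hik ⊢
        exact rowL_zero x _ (hV i hi).1 k hk hik
      · rw [if_neg hk, decide_eq_false_iff_not] at hik
        rw [if_neg hk, if_neg hik]
    · rw [if_neg hi] at hik
      exact absurd hik (by simp)
  · intro k j hkj
    unfold entB at hkj
    by_cases hj : (j : ℕ) < L.length
    · rw [if_pos hj] at hkj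
      rw [h3 j hj k]
      change fB x L k j = 0
      unfold fB
      by_cases hk : (k : ℕ) < 5
      · rw [if_pos hk] at hkj ⊢
        exact colL_zero x _ (hV j hj).1 k hk hkj
      · rw [if_neg hk, decide_eq_false_iff_not] at hkj
        rw [if_neg hk, if_neg hkj]
    · rw [if_neg hj] at hkj
      exact absurd hkj (by simp)

/-- Correctness of the reduction. -/
theorem sat_iff (S : List ER.Con) : ER.Sat S ↔ CMInv (red S) := by
  constructor
  · intro h
    obtain ⟨A, B, h1, h2, h3⟩ := comp h
    exact ⟨size (descs S), isPattern_tab _ _, isPattern_tab _ _, A, B, (fits_tab _ _).2 h1,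
      (fits_tab _ _).2 h2, h3⟩
  · rintro ⟨n, ⟨hn, _⟩, _, A, B, h1, h2, h3⟩
    have hn' : n = size (descs S) := by rw [← hn]; exact length_tab _ _
    subst hn'
    obtain ⟨a, b, h⟩ := is_of_matrices (descs S) _ rfl A B ((fits_tab _ _).1 h1)
      ((fits_tab _ _).1 h2) h3
    exact sound h

end Pool.Agent.X246.CMI
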