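import Pool.Agent.X246.CMI.Main
import Pool.Agent.ER.Build
import Pool.Agent.ER.Dec

/-!
# Constrained matrix invertibility: polynomial time and membership
-/

set_option autoImplicit false

namespace Pool.Agent.NPC.X246CMI

open Pool.Agent.NPC Pool.Agent.X246.CMI Pool.Agent.NPC.H670R2

section Red

variable {α : Type} [TEnc α]

theorem poly_dget {l : α → List D} {i : α → ℕ} (hl : Poly l) (hi : Poly i) :
    Poly (fun a => dget (l a) (i a)) :=
  Poly.getD hl hi (Poly.const (0, 0, 0, 0))

theorem poly_rsup {p k : α → ℕ} (hp : Poly p) (hk : Poly k) :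
    Poly (fun a => rsup (p a) (k a)) :=
  Poly.getD (Poly.getD (Poly.const rsT) hp (Poly.const [])) hk (Poly.const false)

theorem poly_csup {p k : α → ℕ} (hp : Poly p) (hk : Poly k) :
    Poly (fun a => csup (p a) (k a)) :=
  Poly.getD (Poly.getD (Poly.const csT) hp (Poly.const [])) hk (Poly.const false)

theorem poly_oc {p k : α → ℕ} (hp : Poly p) (hk : Poly k) :
    Poly (fun a => oc (p a) (k a)) :=
  Poly.getD (Poly.getD (Poly.const otT) hp (Poly.const [])) hk (Poly.const 0)

theorem poly_orth {d e : α → D} (hd : Poly d) (he : Poly e) :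
    Poly (fun a => decide (Orth (d a) (e a))) := by
  have ho := poly_oc (Poly.fst hd) (Poly.fst he)
  have hv := Poly.fst (Poly.snd hd)
  refine (Poly.decide_or (Poly.decide_eq ho (Poly.const 1))
    (Poly.decide_or (Poly.decide_and (Poly.decide_eq ho (Poly.const 2))
      (Poly.decide_eq hv (Poly.fst (Poly.snd he))))
    (Poly.decide_or (Poly.decide_and (Poly.decide_eq ho (Poly.const 3))
      (Poly.decide_eq hv (Poly.fst (Poly.snd (Poly.snd he)))))
    (Poly.decide_and (Poly.decide_eq ho (Poly.const 4))
      (Poly.decide_eq hv (Poly.snd (Poly.snd (Poly.snd he)))))))).congr fun a => ?_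
  exact decide_eq_decide.2 Iff.rfl

theorem poly_free {l : α → List D} {i j : α → ℕ} (hl : Poly l) (hi : Poly i) (hj : Poly j) :
    Poly (fun a => decide (Free (l a) (i a) (j a))) := by
  refine (Poly.decide_not (Poly.decide_or (Poly.decide_eq hi hj)
    (poly_orth (poly_dget hl hi) (poly_dget hl hj)))).congr fun a => ?_
  exact decide_eq_decide.2 Iff.rfl

theorem poly_entA {l : α → List D} {i k : α → ℕ} (hl : Poly l) (hi : Poly i) (hk : Poly k) :
    Poly (fun a => entA (l a) (i a) (k a)) := by
  have hm := Poly.length hl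
  have h5 := Poly.sub hk (Poly.const (α := α) 5)
  exact Poly.ite (Poly.decide_lt hi hm)
    (Poly.ite (Poly.decide_lt hk (Poly.const 5)) (poly_rsup (Poly.fst (poly_dget hl hi)) hk)
      (Poly.decide_and (Poly.decide_eq (Poly.div h5 hm) hi) (poly_free hl hi (Poly.mod h5 hm))))
    (Poly.const true)

theorem poly_entB {l : α → List D} {k j : α → ℕ} (hl : Poly l) (hk : Poly k) (hj : Poly j) :
    Poly (fun a => entB (l a) (k a) (j a)) := by
  have hm := Poly.length hl
  have h5 := Poly.sub hk (Poly.const (α := α) 5)
  exact Poly.ite (Poly.decide_lt hj hm)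
    (Poly.ite (Poly.decide_lt hk (Poly.const 5)) (poly_csup (Poly.fst (poly_dget hl hj)) hk)
      (Poly.decide_and (Poly.decide_eq (Poly.mod h5 hm) hj) (poly_free hl (Poly.div h5 hm) hj)))
    (Poly.const true)

theorem upoly_size : UPoly (fun L : List D => size L) :=
  UPoly.add (UPoly.const 5) (UPoly.mul (UPoly.length Poly.id) (UPoly.length Poly.id))

theorem poly_tabA : Poly (fun L : List D => tab (size L) (entA L)) := by
  refine Poly.map (F := fun (L : List D) i => (List.range (size L)).map fun j => entA L i j)
    upoly_size.range ?_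
  refine Poly.map (F := fun (p : List D × ℕ) j => entA p.1 p.2 j)
    (upoly_size.comp (Poly.fst Poly.id)).range ?_
  exact poly_entA (Poly.fst (Poly.fst Poly.id)) (Poly.snd (Poly.fst Poly.id)) (Poly.snd Poly.id)

theorem poly_tabB : Poly (fun L : List D => tab (size L) (entB L)) := by
  refine Poly.map (F := fun (L : List D) i => (List.range (size L)).map fun j => entB L i j)
    upoly_size.range ?_
  refine Poly.map (F := fun (p : List D × ℕ) j => entB p.1 p.2 j)
    (upoly_size.comp (Poly.fst Poly.id)).range ?_
  exact poly_entB (Poly.fst (Poly.fst Poly.id)) (Poly.snd (Poly.fst Poly.id)) (Poly.snd Poly.id)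

theorem poly_varD {v : α → ℕ} (hv : Poly v) : Poly (fun a => varD (v a)) := by
  have h : ∀ p : ℕ, Poly (fun a => ((p, v a, 0, 0) : D)) := fun p =>
    Poly.pair (Poly.const p) (Poly.pair hv (Poly.const (0, 0)))
  exact Poly.cons (h 6) (Poly.cons (h 7) (Poly.cons (h 8) (Poly.cons (h 9) (Poly.cons (h 10)
    (Poly.cons (h 11) (Poly.cons (h 12) (Poly.cons (h 13) (Poly.const []))))))))

theorem poly_conD {c : α → ℕ × ℕ × ℕ × ℕ} (hc : Poly c) : Poly (fun a => conD (c a)) := by
  refine Poly.append (poly_varD (Poly.fst (Poly.snd hc)))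
    (Poly.append (poly_varD (Poly.fst (Poly.snd (Poly.snd hc))))
    (Poly.append (poly_varD (Poly.snd (Poly.snd (Poly.snd hc)))) ?_))
  exact Poly.cons (Poly.pair (Poly.ite (Poly.decide_eq (Poly.fst hc) (Poly.const 0))
    (Poly.const 16) (Poly.ite (Poly.decide_eq (Poly.fst hc) (Poly.const 1)) (Poly.const 14)
      (Poly.const 15))) (Poly.snd hc)) (Poly.const [])

theorem poly_descs : Poly descs :=
  Poly.append (Poly.const glob) (Poly.flatMap (F := fun _ (c : ER.Con) => conD c.code) Poly.id
    (poly_conD (ER.poly_con_code (Poly.snd Poly.id))))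

theorem poly_red : Poly red :=
  Poly.pair (poly_tabA.comp poly_descs) (poly_tabB.comp poly_descs)

end Red

/-- Constrained matrix invertibility over `ℝ` is `∃ℝ`-hard. -/
theorem hard : ER.ERHard (lang CMInv) := ER.ERHard.of_sys poly_red sat_iff

/-! ### Membership -/

/-- The test whether the input is a pair of square patterns of the same size. -/
def test (I : List (List Bool) × List (List Bool)) : Bool :=
  (decide (I.2.length = I.1.length) && I.1.all fun r => decide (r.length = I.1.length)) &&
    I.2.all fun r => decide (r.length = I.1.length)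

theorem test_iff (I : List (List Bool) × List (List Bool)) :
    test I = true ↔ IsPattern I.1.length I.1 ∧ IsPattern I.1.length I.2 := by
  unfold test IsPattern
  simp only [Bool.and_eq_true, decide_eq_true_eq, List.all_eq_true]
  tauto

/-- The equations of the first pattern. -/
def atomA (I : List (List Bool) × List (List Bool)) (i j : ℕ) : ER.Fm :=
  if (I.1.getD i []).getD j false = true then tt
  else ER.Fm.eq (ER.Tm.var (2 * (i * I.1.length + j))) ER.Tm.zero

/-- The equations of the second pattern. -/
def atomB (I : List (List Bool) × List (List Bool)) (i j : ℕ) : ER.Fm :=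
  if (I.2.getD i []).getD j false = true then tt
  else ER.Fm.eq (ER.Tm.var (2 * (i * I.1.length + j) + 1)) ER.Tm.zero

/-- The equations of the product. -/
def atomP (I : List (List Bool) × List (List Bool)) (i j : ℕ) : ER.Fm :=
  ER.Fm.eq (ER.sumTm ((List.range I.1.length).map fun k =>
    ER.Tm.mul (ER.Tm.var (2 * (i * I.1.length + k))) (ER.Tm.var (2 * (k * I.1.length + j) + 1))))
    (if i = j then ER.Tm.one else ER.Tm.zero)

/-- All equations. -/
def atoms (I : List (List Bool) × List (List Bool)) : List ER.Fm :=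
  (List.range I.1.length).flatMap fun i => (List.range I.1.length).flatMap fun j =>
    [atomA I i j, atomB I i j, atomP I i j]

/-- The formula of an instance. -/
def formula (I : List (List Bool) × List (List Bool)) : ER.Fm :=
  if test I = true then conj (atoms I) else ff

theorem sum_map_range (f : ℕ → ℝ) (n : ℕ) :
    ((List.range n).map f).sum = ∑ k ∈ Finset.range n, f k := by
  induction n with
  | zero => simp
  | succ n ih =>
      rw [List.range_succ, List.map_append, List.sum_append, ih, Finset.sum_range_succ]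
      simp

theorem holds_atoms (I : List (List Bool) × List (List Bool)) (x : ℕ → ℝ) :
    (conj (atoms I)).Holds x ↔ ∀ i < I.1.length, ∀ j < I.1.length,
      ((I.1.getD i []).getD j false = false → x (2 * (i * I.1.length + j)) = 0) ∧
      ((I.2.getD i []).getD j false = false → x (2 * (i * I.1.length + j) + 1) = 0) ∧
      ∑ k ∈ Finset.range I.1.length, x (2 * (i * I.1.length + k)) *
        x (2 * (k * I.1.length + j) + 1) = if i = j then 1 else 0 := by
  have hA : ∀ i j, (atomA I i j).Holds x ↔
      ((I.1.getD i []).getD j false = false → x (2 * (i * I.1.length + j)) = 0) := by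
    intro i j
    unfold atomA
    by_cases h : (I.1.getD i []).getD j false = true
    · rw [if_pos h]
      simp only [h]
      simp [holds_tt]
    · rw [if_neg h]
      simp only [Bool.not_eq_true] at h
      simp only [h]
      simp [ER.Fm.Holds, ER.Tm.eval]
  have hB : ∀ i j, (atomB I i j).Holds x ↔
      ((I.2.getD i []).getD j false = false → x (2 * (i * I.1.length + j) + 1) = 0) := by
    intro i j
    unfold atomB
    by_cases h : (I.2.getD i []).getD j false = true
    · rw [if_pos h]
      simp only [h]
      simp [holds_tt]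
    · rw [if_neg h]
      simp only [Bool.not_eq_true] at h
      simp only [h]
      simp [ER.Fm.Holds, ER.Tm.eval]
  have hP : ∀ i j, (atomP I i j).Holds x ↔
      ∑ k ∈ Finset.range I.1.length, x (2 * (i * I.1.length + k)) *
        x (2 * (k * I.1.length + j) + 1) = if i = j then 1 else 0 := by
    intro i j
    unfold atomP
    simp only [ER.Fm.Holds, ER.eval_sumTm, List.map_map]
    rw [← sum_map_range]
    have h1 : (if i = j then ER.Tm.one else ER.Tm.zero).eval x = if i = j then (1 : ℝ) else 0 := by
      split_ifs <;> rfl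
    rw [h1]
    rfl
  rw [holds_conj]
  unfold atoms
  constructor
  · intro h i hi j hj
    have h1 : ∀ φ ∈ [atomA I i j, atomB I i j, atomP I i j], φ.Holds x := fun φ hφ =>
      h φ (List.mem_flatMap.2 ⟨i, List.mem_range.2 hi, List.mem_flatMap.2
        ⟨j, List.mem_range.2 hj, hφ⟩⟩)
    exact ⟨(hA i j).1 (h1 _ (by simp)), (hB i j).1 (h1 _ (by simp)), (hP i j).1 (h1 _ (by simp))⟩
  · intro h φ hφ
    rw [List.mem_flatMap] at hφ
    obtain ⟨i, hi, hφ⟩ := hφ
    rw [List.mem_flatMap] at hφ
    obtain ⟨j, hj, hφ⟩ := hφ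
    obtain ⟨h1, h2, h3⟩ := h i (List.mem_range.1 hi) j (List.mem_range.1 hj)
    simp only [List.mem_cons, List.not_mem_nil, or_false] at hφ
    rcases hφ with rfl | rfl | rfl
    · exact (hA i j).2 h1
    · exact (hB i j).2 h2
    · exact (hP i j).2 h3

/-- The assignment of a pair of matrices. -/
noncomputable def asg (n : ℕ) (a b : ℕ → ℕ → ℝ) (v : ℕ) : ℝ :=
  if v % 2 = 0 then a (v / 2 / n) (v / 2 % n) else b (v / 2 / n) (v / 2 % n)

theorem asg_A {n : ℕ} (a b : ℕ → ℕ → ℝ) {i k : ℕ} (hk : k < n) :
    asg n a b (2 * (i * n + k)) = a i k := by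
  have hn : 0 < n := by omega
  have e0 : 2 * (i * n + k) % 2 = 0 := by omega
  have e1 : 2 * (i * n + k) / 2 = k + i * n := by omega
  rw [asg, if_pos e0, e1, Nat.add_mul_div_right _ _ hn, Nat.div_eq_of_lt hk, zero_add,
    Nat.add_mul_mod_self_right, Nat.mod_eq_of_lt hk]

theorem asg_B {n : ℕ} (a b : ℕ → ℕ → ℝ) {i k : ℕ} (hk : k < n) :
    asg n a b (2 * (i * n + k) + 1) = b i k := by
  have hn : 0 < n := by omega
  have e0 : ¬ (2 * (i * n + k) + 1) % 2 = 0 := by omega
  have e1 : (2 * (i * n + k) + 1) / 2 = k + i * n := by omega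
  rw [asg, if_neg e0, e1, Nat.add_mul_div_right _ _ hn, Nat.div_eq_of_lt hk, zero_add,
    Nat.add_mul_mod_self_right, Nat.mod_eq_of_lt hk]

theorem formula_iff (I : List (List Bool) × List (List Bool)) : CMInv I ↔ ER.ETR (formula I) := by
  unfold formula
  by_cases ht : test I = true
  · rw [if_pos ht]
    rw [test_iff] at ht
    unfold ER.ETR
    simp only [holds_atoms]
    constructor
    · rintro ⟨n, hp1, hp2, A, B, h1, h2, h3⟩
      obtain ⟨P, Q⟩ := I
      have hn : P.length = n := hp1.1
      subst hn
      let a : ℕ → ℕ → ℝ := fun i k =>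
        if h : i < P.length ∧ k < P.length then A ⟨i, h.1⟩ ⟨k, h.2⟩ else 0
      let b : ℕ → ℕ → ℝ := fun i k =>
        if h : i < P.length ∧ k < P.length then B ⟨i, h.1⟩ ⟨k, h.2⟩ else 0
      have ha : ∀ i k (hi : i < P.length) (hk : k < P.length), a i k = A ⟨i, hi⟩ ⟨k, hk⟩ :=
        fun i k hi hk => by simp only [a, dif_pos (And.intro hi hk)]
      have hb : ∀ i k (hi : i < P.length) (hk : k < P.length), b i k = B ⟨i, hi⟩ ⟨k, hk⟩ :=
        fun i k hi hk => by simp only [b, dif_pos (And.intro hi hk)]
      refine ⟨asg P.length a b, fun i hi j hj => ⟨?_, ?_, ?_⟩⟩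
      · intro hz
        rw [asg_A a b hj, ha i j hi hj]
        exact h1 ⟨i, hi⟩ ⟨j, hj⟩ hz
      · intro hz
        rw [asg_B a b hj, hb i j hi hj]
        exact h2 ⟨i, hi⟩ ⟨j, hj⟩ hz
      · have h4 := congrFun (congrFun h3 ⟨i, hi⟩) ⟨j, hj⟩
        rw [Matrix.mul_apply, Matrix.one_apply] at h4
        simp only [Fin.mk.injEq] at h4
        rw [← h4]
        have h5 : ∀ k ∈ Finset.range P.length, asg P.length a b (2 * (i * P.length + k)) *
            asg P.length a b (2 * (k * P.length + j) + 1) = a i k * b k j := by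
          intro k hk
          rw [asg_A a b (Finset.mem_range.1 hk), asg_B a b hj]
        rw [Finset.sum_congr rfl h5, ← Fin.sum_univ_eq_sum_range (fun k => a i k * b k j)]
        refine Finset.sum_congr rfl fun k _ => ?_
        rw [ha i k hi k.2, hb k j k.2 hj]
    · rintro ⟨x, hx⟩
      refine ⟨I.1.length, ht.1, ht.2, Matrix.of fun i k => x (2 * (i * I.1.length + k)),
        Matrix.of fun k j => x (2 * (k * I.1.length + j) + 1), ?_, ?_, ?_⟩
      · intro i j hz
        exact (hx i i.2 j j.2).1 hz
      · intro i j hz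
        exact (hx i i.2 j j.2).2.1 hz
      · ext i j
        rw [Matrix.mul_apply, Matrix.one_apply]
        have h1 := (hx i i.2 j j.2).2.2
        rw [← Fin.sum_univ_eq_sum_range (fun k => x (2 * ((i : ℕ) * I.1.length + k)) *
          x (2 * (k * I.1.length + (j : ℕ)) + 1))] at h1
        simp only [Matrix.of_apply]
        rw [h1]
        by_cases hij : i = j
        · rw [if_pos hij, if_pos (congrArg Fin.val hij)]
        · rw [if_neg hij, if_neg (fun h => hij (Fin.ext h))]
  · rw [if_neg ht]
    constructor
    · rintro ⟨n, h1, h2, _⟩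
      exfalso
      apply ht
      rw [test_iff]
      have hn : n = I.1.length := h1.1.symm
      subst hn
      exact ⟨h1, h2⟩
    · intro h
      exact absurd h not_etr_ff

theorem poly_test : Poly test := by
  have h1 : Poly (fun I : List (List Bool) × List (List Bool) => I.1.length) :=
    Poly.length (Poly.fst Poly.id)
  refine Poly.and (Poly.and (Poly.decide_eq (Poly.length (Poly.snd Poly.id)) h1)
    (Poly.all (p := fun (I : List (List Bool) × List (List Bool)) (r : List Bool) =>
      decide (r.length = I.1.length)) (Poly.fst Poly.id) ?_))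
    (Poly.all (p := fun (I : List (List Bool) × List (List Bool)) (r : List Bool) =>
      decide (r.length = I.1.length)) (Poly.snd Poly.id) ?_)
  · exact Poly.decide_eq (Poly.length (Poly.snd Poly.id)) (h1.comp (Poly.fst Poly.id))
  · exact Poly.decide_eq (Poly.length (Poly.snd Poly.id)) (h1.comp (Poly.fst Poly.id))

section Atoms

variable {α : Type} [TEnc α] {I : α → List (List Bool) × List (List Bool)} {i j : α → ℕ}

theorem poly_var0 (hI : Poly I) (hi : Poly i) (hj : Poly j) :
    Poly (fun a => 2 * (i a * (I a).1.length + j a)) :=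
  Poly.mul (Poly.const 2) (Poly.add (Poly.mul hi (Poly.length (Poly.fst hI))) hj)

theorem poly_entry {P : α → List (List Bool)} (hP : Poly P) (hi : Poly i) (hj : Poly j) :
    Poly (fun a => decide (((P a).getD (i a) []).getD (j a) false = true)) :=
  Poly.decide_eq (Poly.getD (Poly.getD hP hi (Poly.const [])) hj (Poly.const false))
    (Poly.const true)

theorem poly_atomA (hI : Poly I) (hi : Poly i) (hj : Poly j) :
    Poly (fun a => atomA (I a) (i a) (j a)) :=
  Poly.ite (poly_entry (Poly.fst hI) hi hj) (Poly.const tt)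
    (poly_eq (poly_tvar (poly_var0 hI hi hj)) (Poly.const _))

theorem poly_atomB (hI : Poly I) (hi : Poly i) (hj : Poly j) :
    Poly (fun a => atomB (I a) (i a) (j a)) :=
  Poly.ite (poly_entry (Poly.snd hI) hi hj) (Poly.const tt)
    (poly_eq (poly_tvar (Poly.succ (poly_var0 hI hi hj))) (Poly.const _))

theorem poly_atomP (hI : Poly I) (hi : Poly i) (hj : Poly j) :
    Poly (fun a => atomP (I a) (i a) (j a)) := by
  refine poly_eq (ER.poly_sumTm ?_) (Poly.ite (Poly.decide_eq hi hj) (Poly.const _)
    (Poly.const _))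
  have hf := Poly.fst (Poly.id (α := α × ℕ))
  have hk := Poly.snd (Poly.id (α := α × ℕ))
  exact Poly.map (F := fun a k => ER.Tm.mul (ER.Tm.var (2 * (i a * (I a).1.length + k)))
      (ER.Tm.var (2 * (k * (I a).1.length + j a) + 1)))
    (Poly.range_length (Poly.fst hI))
    (poly_tmul (poly_tvar (poly_var0 (hI.comp hf) (hi.comp hf) hk))
      (poly_tvar (Poly.succ (poly_var0 (hI.comp hf) hk (hj.comp hf)))))

end Atoms

theorem poly_atoms : Poly atoms := by
  refine Poly.flatMap (F := fun (I : List (List Bool) × List (List Bool)) i =>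
    (List.range I.1.length).flatMap fun j => [atomA I i j, atomB I i j, atomP I i j])
    (Poly.range_length (Poly.fst Poly.id)) ?_
  refine Poly.flatMap (F := fun (p : (List (List Bool) × List (List Bool)) × ℕ) j =>
    [atomA p.1 p.2 j, atomB p.1 p.2 j, atomP p.1 p.2 j])
    (Poly.range_length (Poly.fst (Poly.fst Poly.id))) ?_
  have hI := Poly.fst (Poly.fst
    (Poly.id (α := ((List (List Bool) × List (List Bool)) × ℕ) × ℕ)))
  have hi := Poly.snd (Poly.fst
    (Poly.id (α := ((List (List Bool) × List (List Bool)) × ℕ) × ℕ)))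
  have hj := Poly.snd (Poly.id (α := ((List (List Bool) × List (List Bool)) × ℕ) × ℕ))
  exact Poly.cons (poly_atomA hI hi hj) (Poly.cons (poly_atomB hI hi hj)
    (Poly.cons (poly_atomP hI hi hj) (Poly.const [])))

theorem poly_formula : Poly formula :=
  Poly.ite (Poly.decide_bool poly_test) (poly_conj poly_atoms) (Poly.const ff)

/-- Constrained matrix invertibility over `ℝ` lies in `∃ℝ`. -/
theorem mem : ER.InER (lang CMInv) := ER.InER.of_poly poly_formula formula_iff

end Pool.Agent.NPC.X246CMI
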