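import Pool.Agent.ER.ToSys
import Pool.Agent.X246.CMI.Lin

/-!
# Constrained matrix invertibility: the reduction from systems of equations
-/

set_option autoImplicit false

namespace Pool.Agent.X246.CMI

open Pool.Agent.NPC Finset

/-- Kinds of vectors with parameters. Index `i` of the matrices with description `d` carries a row
vector (row `i` of the first matrix) and a column vector (column `i` of the second one). -/
abbrev D : Type := ℕ × ℕ × ℕ × ℕ

/-- Supports of the row vectors on the five basic coordinates. -/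
def rsT : List (List Bool) := [
    [true, false, false, false, false],
    [true, false, false, true, false],
    [false, true, false, true, false],
    [false, true, true, false, false],
    [false, false, true, false, true],
    [false, true, false, false, false],
    [true, false, false, false, false],
    [true, false, false, false, false],
    [true, true, false, false, false],
    [true, false, true, false, false],
    [false, false, false, true, true],
    [false, false, false, true, false],
    [false, true, true, false, false],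
    [true, true, true, false, false],
    [true, false, false, false, false],
    [true, false, false, false, false],
    [true, true, false, false, false]]

/-- Supports of the column vectors on the five basic coordinates. -/
def csT : List (List Bool) := [
    [true, true, true, true, true],
    [true, false, false, false, false],
    [false, false, false, true, false],
    [false, true, false, false, false],
    [false, false, true, false, false],
    [false, true, true, false, false],
    [true, true, true, true, true],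
    [true, true, false, false, false],
    [false, true, false, false, false],
    [false, false, true, false, false],
    [false, false, false, false, true],
    [false, true, true, true, true],
    [false, false, true, false, false],
    [false, true, false, false, false],
    [true, true, true, false, false],
    [true, true, true, false, false],
    [false, true, false, false, false]]

/-- Orthogonality codes. -/
def otT : List (List ℕ) := [
    [0, 0, 0, 0, 0, 0, 0, 0, 0, 0, 0, 0, 0, 0, 0, 0, 0],
    [1, 0, 0, 0, 0, 0, 1, 0, 0, 0, 0, 0, 0, 0, 0, 0, 0],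
    [1, 0, 0, 0, 0, 0, 0, 0, 0, 0, 0, 1, 0, 0, 0, 0, 0],
    [1, 0, 0, 0, 0, 1, 1, 0, 0, 0, 0, 0, 0, 0, 0, 0, 0],
    [1, 0, 0, 0, 0, 0, 1, 0, 0, 0, 0, 1, 0, 0, 0, 0, 0],
    [0, 0, 0, 0, 0, 0, 0, 0, 0, 0, 0, 0, 0, 0, 0, 0, 0],
    [0, 0, 0, 0, 0, 0, 0, 0, 0, 0, 0, 0, 0, 0, 0, 0, 0],
    [0, 0, 0, 0, 0, 0, 0, 0, 0, 0, 0, 0, 0, 0, 0, 0, 0],
    [0, 0, 0, 0, 0, 0, 2, 2, 0, 0, 0, 0, 0, 0, 4, 2, 0],
    [0, 0, 0, 0, 0, 0, 2, 0, 0, 0, 0, 0, 0, 0, 3, 4, 0],
    [0, 0, 0, 0, 0, 0, 2, 0, 0, 0, 0, 2, 0, 0, 0, 0, 0],
    [0, 0, 0, 0, 0, 0, 0, 0, 0, 0, 0, 0, 0, 0, 0, 0, 0],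
    [0, 0, 0, 0, 0, 0, 0, 0, 0, 0, 0, 2, 0, 0, 0, 3, 0],
    [0, 0, 0, 0, 0, 1, 0, 2, 0, 0, 0, 0, 0, 0, 2, 0, 0],
    [0, 0, 0, 0, 0, 0, 0, 0, 0, 0, 0, 0, 0, 0, 0, 0, 0],
    [0, 0, 0, 0, 0, 0, 0, 0, 0, 0, 0, 0, 0, 0, 0, 0, 0],
    [1, 0, 0, 0, 0, 0, 2, 0, 0, 0, 0, 0, 0, 0, 0, 0, 0]]

def rsup (p k : ℕ) : Bool := (rsT.getD p []).getD k false
def csup (p k : ℕ) : Bool := (csT.getD p []).getD k false
def oc (p q : ℕ) : ℕ := (otT.getD p []).getD q 0

/-- The row vector of `d` has to be orthogonal to the column vector of `e`. -/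
def Orth (d e : D) : Prop :=
  oc d.1 e.1 = 1 ∨ (oc d.1 e.1 = 2 ∧ d.2.1 = e.2.1) ∨ (oc d.1 e.1 = 3 ∧ d.2.1 = e.2.2.1) ∨
    (oc d.1 e.1 = 4 ∧ d.2.1 = e.2.2.2)

instance (d e : D) : Decidable (Orth d e) := by unfold Orth; infer_instance

/-- Pairs of kinds with a non-zero code. -/
def PL : List (ℕ × ℕ) := [(1, 0), (2, 0), (3, 0), (4, 0), (3, 5), (1, 6), (3, 6), (4, 6), (2, 11), (4, 11), (8, 6), (8, 7), (8, 14), (8, 15), (9, 6), (9, 14), (9, 15), (10, 6), (10, 11), (12, 11), (12, 15), (13, 5), (13, 7), (13, 14), (16, 6), (16, 0)]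

theorem rsT_length : rsT.length = 17 := rfl
theorem csT_length : csT.length = 17 := rfl
theorem otT_length : otT.length = 17 := rfl

theorem oc_mem {p q : ℕ} (h : oc p q ≠ 0) : (p, q) ∈ PL := by
  have hp : p < 17 := by
    by_contra hp
    apply h
    unfold oc
    rw [List.getD_eq_default otT [] (by rw [otT_length]; omega)]
    rfl
  have hq : q < 17 := by
    by_contra hq
    apply h
    unfold oc
    have hl : (otT.getD p []).length ≤ 17 := by
      have : ∀ p < 17, (otT.getD p []).length ≤ 17 := by decide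
      exact this p hp
    exact List.getD_eq_default _ _ (by omega)
  have : ∀ p q : Fin 17, oc (p : ℕ) (q : ℕ) = 0 ∨ ((p : ℕ), (q : ℕ)) ∈ PL := by decide +kernel
  exact (this ⟨p, hp⟩ ⟨q, hq⟩).resolve_left h

theorem oc_self (p : ℕ) : oc p p = 0 := by
  by_contra h
  have h1 := oc_mem h
  have h2 : ∀ r ∈ PL, r.1 ≠ r.2 := by decide
  exact h2 _ h1 rfl

theorem not_orth_self (d : D) : ¬ Orth d d := by
  unfold Orth
  rw [oc_self]
  omega

/-- The vectors attached to a variable. -/
def varD (v : ℕ) : List D :=
  [(6, v, 0, 0), (7, v, 0, 0), (8, v, 0, 0), (9, v, 0, 0), (10, v, 0, 0), (11, v, 0, 0),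
    (12, v, 0, 0), (13, v, 0, 0)]

/-- The vectors attached to a constraint. -/
def conD (c : ℕ × ℕ × ℕ × ℕ) : List D :=
  varD c.2.1 ++ (varD c.2.2.1 ++ (varD c.2.2.2 ++
    [(if c.1 = 0 then 16 else if c.1 = 1 then 14 else 15, c.2)]))

/-- The vectors used in all systems. -/
def glob : List D :=
  [(0, 0, 0, 0), (1, 0, 0, 0), (2, 0, 0, 0), (3, 0, 0, 0), (4, 0, 0, 0), (5, 0, 0, 0)]

/-- All vectors for a system of constraints. -/
def descs (S : List ER.Con) : List D := glob ++ S.flatMap fun c => conD c.code

/-- The description of index `i`. -/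
def dget (L : List D) (i : ℕ) : D := L.getD i (0, 0, 0, 0)

/-- The product of row `i` and column `j` is not constrained on the basic coordinates. -/
def Free (L : List D) (i j : ℕ) : Prop := ¬ (i = j ∨ Orth (dget L i) (dget L j))

instance (L : List D) (i j : ℕ) : Decidable (Free L i j) := by unfold Free; infer_instance

/-- The entries of the first pattern. -/
def entA (L : List D) (i k : ℕ) : Bool :=
  if i < L.length then
    (if k < 5 then rsup (dget L i).1 k
      else decide ((k - 5) / L.length = i ∧ Free L i ((k - 5) % L.length)))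
  else true

/-- The entries of the second pattern. -/
def entB (L : List D) (k j : ℕ) : Bool :=
  if j < L.length then
    (if k < 5 then csup (dget L j).1 k
      else decide ((k - 5) % L.length = j ∧ Free L ((k - 5) / L.length) j))
  else true

/-- A square table of Booleans. -/
def tab (n : ℕ) (f : ℕ → ℕ → Bool) : List (List Bool) :=
  (List.range n).map fun i => (List.range n).map fun j => f i j

theorem tab_getD {n : ℕ} {f : ℕ → ℕ → Bool} {i j : ℕ} (hi : i < n) (hj : j < n) :
    ((tab n f).getD i []).getD j false = f i j := by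
  simp [tab, List.getD, hi, hj]

/-- A solution of the bilinear system given by a list of descriptions. -/
structure IS (L : List D) (a b : ℕ → ℕ → ℝ) : Prop where
  rs : ∀ i < L.length, ∀ k < 5, rsup (dget L i).1 k = false → a i k = 0
  cs : ∀ i < L.length, ∀ k < 5, csup (dget L i).1 k = false → b i k = 0
  one : ∀ i < L.length, ∑ k ∈ range 5, a i k * b i k = 1
  orth : ∀ i < L.length, ∀ j < L.length, Orth (dget L i) (dget L j) →
    ∑ k ∈ range 5, a i k * b j k = 0

/-- The matrices of a solution contain a solution of the bilinear system. -/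
theorem is_of_matrices (L : List D) (m : ℕ) (hm : L.length = m)
    (A B : Matrix (Fin (5 + m * m)) (Fin (5 + m * m)) ℝ)
    (hA : ∀ i k : Fin (5 + m * m), entA L i k = false → A i k = 0)
    (hB : ∀ k j : Fin (5 + m * m), entB L k j = false → B k j = 0)
    (h : A * B = 1) : ∃ a b : ℕ → ℕ → ℝ, IS L a b := by
  have hmn : ∀ i, i < m → i < 5 + m * m := fun i hi => by nlinarith
  let a : ℕ → ℕ → ℝ := fun i k => if h : i < 5 + m * m ∧ k < 5 + m * m then A ⟨i, h.1⟩ ⟨k, h.2⟩ else 0
  let b : ℕ → ℕ → ℝ := fun j k => if h : j < 5 + m * m ∧ k < 5 + m * m then B ⟨k, h.2⟩ ⟨j, h.1⟩ else 0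
  have ha : ∀ i k (hi : i < 5 + m * m) (hk : k < 5 + m * m), a i k = A ⟨i, hi⟩ ⟨k, hk⟩ :=
    fun i k hi hk => by simp only [a, dif_pos (And.intro hi hk)]
  have hb : ∀ j k (hj : j < 5 + m * m) (hk : k < 5 + m * m), b j k = B ⟨k, hk⟩ ⟨j, hj⟩ :=
    fun j k hj hk => by simp only [b, dif_pos (And.intro hj hk)]
  have hsum : ∀ i j (hi : i < 5 + m * m) (hj : j < 5 + m * m),
      ∑ k ∈ range (5 + m * m), a i k * b j k = if i = j then 1 else 0 := by
    intro i j hi hj
    rw [← Fin.sum_univ_eq_sum_range (fun k => a i k * b j k)]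
    have h1 := congrFun (congrFun h ⟨i, hi⟩) ⟨j, hj⟩
    rw [Matrix.mul_apply, Matrix.one_apply] at h1
    simp only [Fin.mk.injEq] at h1
    rw [← h1]
    refine Finset.sum_congr rfl fun k _ => ?_
    rw [ha i k hi k.2, hb j k hj k.2]
  have hred : ∀ i < m, ∀ j < m, ¬ Free L i j →
      ∑ k ∈ range 5, a i k * b j k = if i = j then 1 else 0 := by
    intro i hi j hj hf
    rw [← hsum i j (hmn i hi) (hmn j hj), Finset.sum_range_add]
    rw [left_eq_add]
    refine Finset.sum_eq_zero fun p hp => ?_
    rw [Finset.mem_range] at hp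
    have hk : 5 + p < 5 + m * m := by omega
    by_cases h1 : p / m = i ∧ p % m = j
    · have h2 : entA L i (5 + p) = false := by
        unfold entA
        rw [hm, if_pos hi, if_neg (by omega), Nat.add_sub_cancel_left, decide_eq_false_iff_not]
        rintro ⟨_, h3⟩
        rw [h1.2] at h3
        exact hf h3
      rw [ha i (5 + p) (hmn i hi) hk, hA ⟨i, hmn i hi⟩ ⟨5 + p, hk⟩ h2, zero_mul]
    · by_cases h2 : p / m = i
      · have h3 : entB L (5 + p) j = false := by
          unfold entB
          rw [hm, if_pos hj, if_neg (by omega), Nat.add_sub_cancel_left, decide_eq_false_iff_not]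
          rintro ⟨h3, _⟩
          exact h1 ⟨h2, h3⟩
        rw [hb j (5 + p) (hmn j hj) hk, hB ⟨5 + p, hk⟩ ⟨j, hmn j hj⟩ h3, mul_zero]
      · have h3 : entA L i (5 + p) = false := by
          unfold entA
          rw [hm, if_pos hi, if_neg (by omega), Nat.add_sub_cancel_left, decide_eq_false_iff_not]
          rintro ⟨h3, _⟩
          exact h2 h3
        rw [ha i (5 + p) (hmn i hi) hk, hA ⟨i, hmn i hi⟩ ⟨5 + p, hk⟩ h3, zero_mul]
  refine ⟨a, b, ⟨?_, ?_, ?_, ?_⟩⟩
  · intro i hi k hk h1
    rw [ha i k (hmn i (hm ▸ hi)) (by omega)]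
    apply hA
    unfold entA
    rw [if_pos hi, if_pos hk]
    exact h1
  · intro i hi k hk h1
    rw [hb i k (hmn i (hm ▸ hi)) (by omega)]
    apply hB
    unfold entB
    rw [if_pos hi, if_pos hk]
    exact h1
  · intro i hi
    rw [hm] at hi
    rw [hred i hi i hi (fun h => h (Or.inl rfl)), if_pos rfl]
  · intro i hi j hj ho
    rw [hm] at hi hj
    rw [hred i hi j hj (fun h => h (Or.inr ho)), if_neg]
    rintro rfl
    exact not_orth_self _ ho

end Pool.Agent.X246.CMI
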