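import Pool.Agent.X246.CMI.Eqs

/-!
# A solution of the bilinear system gives a solution of the system of equations
-/

set_option autoImplicit false

namespace Pool.Agent.X246.CMI

open Pool.Agent.NPC Finset

variable {L : List D} {a b : ℕ → ℕ → ℝ}

/-- Rescaling of the coordinates. -/
theorem IS.rescale (h : IS L a b) (o : ℕ → ℝ) (ho : ∀ k < 5, o k ≠ 0) :
    IS L (fun i k => a i k * o k) (fun i k => b i k / o k) := by
  have key : ∀ i j, ∑ k ∈ range 5, (a i k * o k) * (b j k / o k) =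
      ∑ k ∈ range 5, a i k * b j k := by
    intro i j
    refine Finset.sum_congr rfl fun k hk => ?_
    have := ho k (Finset.mem_range.1 hk)
    field_simp
  refine ⟨?_, ?_, ?_, ?_⟩
  · intro i hi k hk hz
    rw [h.rs i hi k hk hz, zero_mul]
  · intro i hi k hk hz
    rw [h.cs i hi k hk hz, zero_div]
  · intro i hi
    rw [key, h.one i hi]
  · intro i hi j hj ho
    rw [key, h.orth i hi j hj ho]

/-- The list starts with the six global vectors. -/
structure Glob (L : List D) : Prop where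
  len : 6 ≤ L.length
  g0 : dget L 0 = (0, 0, 0, 0)
  g1 : dget L 1 = (1, 0, 0, 0)
  g2 : dget L 2 = (2, 0, 0, 0)
  g3 : dget L 3 = (3, 0, 0, 0)
  g4 : dget L 4 = (4, 0, 0, 0)
  g5 : dget L 5 = (5, 0, 0, 0)

theorem Glob.lt (hG : Glob L) {i : ℕ} (hi : i < 6) : i < L.length := lt_of_lt_of_le hi hG.len

theorem ne_zero_of_mul_eq_one {x y : ℝ} (h : x * y = 1) : x ≠ 0 ∧ y ≠ 0 := by
  constructor
  · rintro rfl; simp at h
  · rintro rfl; simp at h

theorem ones_ne_zero (h : IS L a b) (hG : Glob L) : ∀ k < 5, b 0 k ≠ 0 := by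
  have h0 := (ne_zero_of_mul_eq_one (s_0 h (hG.lt (by norm_num)) hG.g0)).2
  have h1 := (ne_zero_of_mul_eq_one (s_1 h (hG.lt (by norm_num)) hG.g1)).1
  have h2 := (ne_zero_of_mul_eq_one (s_2 h (hG.lt (by norm_num)) hG.g2)).1
  have h3 := (ne_zero_of_mul_eq_one (s_3 h (hG.lt (by norm_num)) hG.g3)).1
  have h4 := (ne_zero_of_mul_eq_one (s_4 h (hG.lt (by norm_num)) hG.g4)).1
  have e1 := e_1_0 h (hG.lt (by norm_num)) (hG.lt (by norm_num)) hG.g1 hG.g0
  have e2 := e_2_0 h (hG.lt (by norm_num)) (hG.lt (by norm_num)) hG.g2 hG.g0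
  have e3 := e_3_0 h (hG.lt (by norm_num)) (hG.lt (by norm_num)) hG.g3 hG.g0
  have e4 := e_4_0 h (hG.lt (by norm_num)) (hG.lt (by norm_num)) hG.g4 hG.g0
  have n3 : b 0 3 ≠ 0 := by
    intro hz
    rw [hz, mul_zero, add_zero] at e1
    exact (mul_ne_zero h1 h0) e1
  have n1 : b 0 1 ≠ 0 := by
    intro hz
    rw [hz, mul_zero, zero_add] at e2
    exact (mul_ne_zero h2 n3) e2
  have n2 : b 0 2 ≠ 0 := by
    intro hz
    rw [hz, mul_zero, add_zero] at e3
    exact (mul_ne_zero h3 n1) e3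
  have n4 : b 0 4 ≠ 0 := by
    intro hz
    rw [hz, mul_zero, add_zero] at e4
    exact (mul_ne_zero h4 n2) e4
  intro k hk
  interval_cases k <;> assumption

section Normalised

variable (h : IS L a b) (hG : Glob L) (hn : ∀ k < 5, b 0 k = 1)

include h hG hn

theorem E03 : a 1 3 = - a 1 0 ∧ a 1 0 ≠ 0 := by
  have e := e_1_0 h (hG.lt (by norm_num)) (hG.lt (by norm_num)) hG.g1 hG.g0
  rw [hn 0 (by norm_num), hn 3 (by norm_num)] at e
  exact ⟨by linarith, (ne_zero_of_mul_eq_one (s_1 h (hG.lt (by norm_num)) hG.g1)).1⟩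

theorem E13 : a 2 1 = - a 2 3 ∧ a 2 3 ≠ 0 := by
  have e := e_2_0 h (hG.lt (by norm_num)) (hG.lt (by norm_num)) hG.g2 hG.g0
  rw [hn 1 (by norm_num), hn 3 (by norm_num)] at e
  exact ⟨by linarith, (ne_zero_of_mul_eq_one (s_2 h (hG.lt (by norm_num)) hG.g2)).1⟩

theorem E12 : a 3 2 = - a 3 1 ∧ a 3 1 ≠ 0 := by
  have e := e_3_0 h (hG.lt (by norm_num)) (hG.lt (by norm_num)) hG.g3 hG.g0
  rw [hn 1 (by norm_num), hn 2 (by norm_num)] at e
  exact ⟨by linarith, (ne_zero_of_mul_eq_one (s_3 h (hG.lt (by norm_num)) hG.g3)).1⟩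

theorem E24 : a 4 4 = - a 4 2 ∧ a 4 2 ≠ 0 := by
  have e := e_4_0 h (hG.lt (by norm_num)) (hG.lt (by norm_num)) hG.g4 hG.g0
  rw [hn 2 (by norm_num), hn 4 (by norm_num)] at e
  exact ⟨by linarith, (ne_zero_of_mul_eq_one (s_4 h (hG.lt (by norm_num)) hG.g4)).1⟩

theorem cancelN {s x y : ℝ} (hs : s ≠ 0) (he : s * x + -s * y = 0) : y = x := by
  have : s * (x - y) = 0 := by linarith
  rcases mul_eq_zero.1 this with h1 | h1
  · exact absurd h1 hs
  · linarith

theorem Qf : b 5 2 = b 5 1 ∧ b 5 1 ≠ 0 := by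
  have e := e_3_5 h (hG.lt (by norm_num)) (hG.lt (by norm_num)) hG.g3 hG.g5
  obtain ⟨h1, h2⟩ := E12 h hG hn
  rw [h1] at e
  exact ⟨cancelN h hG hn h2 e, (ne_zero_of_mul_eq_one (s_5 h (hG.lt (by norm_num)) hG.g5)).2⟩

theorem Hf {g v v2 v3 : ℕ} (hg : g < L.length) (hd : dget L g = (6, v, v2, v3)) :
    b g 0 ≠ 0 ∧ b g 3 = b g 0 ∧ b g 2 = b g 1 ∧ b g 4 = b g 1 := by
  have e1 := e_1_6 h (hG.lt (by norm_num)) hg hG.g1 hd
  have e3 := e_3_6 h (hG.lt (by norm_num)) hg hG.g3 hd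
  have e4 := e_4_6 h (hG.lt (by norm_num)) hg hG.g4 hd
  obtain ⟨p1, q1⟩ := E03 h hG hn
  obtain ⟨p3, q3⟩ := E12 h hG hn
  obtain ⟨p4, q4⟩ := E24 h hG hn
  rw [p1] at e1
  rw [p3] at e3
  rw [p4] at e4
  have h3 := cancelN h hG hn q1 e1
  have h2 := cancelN h hG hn q3 e3
  have h4 := cancelN h hG hn q4 e4
  exact ⟨(ne_zero_of_mul_eq_one (s_6 h hg hd)).2, h3, h2, by rw [h4, h2]⟩

theorem Gf {g v v2 v3 : ℕ} (hg : g < L.length) (hd : dget L g = (11, v, v2, v3)) :
    b g 3 ≠ 0 ∧ b g 1 = b g 3 ∧ b g 4 = b g 2 := by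
  have e2 := e_2_11 h (hG.lt (by norm_num)) hg hG.g2 hd
  have e4 := e_4_11 h (hG.lt (by norm_num)) hg hG.g4 hd
  obtain ⟨p2, q2⟩ := E13 h hG hn
  obtain ⟨p4, q4⟩ := E24 h hG hn
  rw [p2] at e2
  rw [p4] at e4
  have h1 := cancelN h hG hn q2 (x := b g 3) (y := b g 1) (by linarith)
  have h4 := cancelN h hG hn q4 e4
  exact ⟨(ne_zero_of_mul_eq_one (s_11 h hg hd)).2, h1, h4⟩

end Normalised

open Classical in
/-- The value of a variable. -/
noncomputable def val (L : List D) (a : ℕ → ℕ → ℝ) (v : ℕ) : ℝ :=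
  if hx : ∃ r, r < L.length ∧ dget L r = (8, v, 0, 0) then - a hx.choose 0 / a hx.choose 1 else 0

/-- All vectors of a variable are present. -/
def HasVar (L : List D) (v : ℕ) : Prop := ∀ d ∈ varD v, ∃ r, r < L.length ∧ dget L r = d

theorem HasVar.get {v : ℕ} (hv : HasVar L v) {p : ℕ} (h6 : 6 ≤ p) (h13 : p ≤ 13) :
    ∃ r, r < L.length ∧ dget L r = (p, v, 0, 0) := by
  apply hv
  interval_cases p <;> simp [varD]

section Values

variable (h : IS L a b) (hG : Glob L) (hn : ∀ k < 5, b 0 k = 1)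

include h hG hn

theorem val_H {v g v2 v3 : ℕ} (hv : HasVar L v) (hg : g < L.length)
    (hd : dget L g = (6, v, v2, v3)) : b g 1 = val L a v * b g 0 := by
  have hx := hv.get (p := 8) (by norm_num) (by norm_num)
  have h1 := hx.choose_spec
  have e := e_8_6 h h1.1 hg h1.2 hd
  have hne := (ne_zero_of_mul_eq_one (s_8 h h1.1 h1.2)).1
  rw [val, dif_pos hx]
  field_simp
  linarith

theorem row_of {s t x y v : ℝ} (hx : x ≠ 0) (hy : y = v * x) (he : s * x + t * y = 0) :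
    s = - v * t := by
  rw [hy] at he
  have : x * (s + v * t) = 0 := by linarith
  rcases mul_eq_zero.1 this with h1 | h1
  · exact absurd h1 hx
  · linarith

theorem col_of {s t x y v : ℝ} (ht : t ≠ 0) (hs : s = - v * t) (he : s * x + t * y = 0) :
    y = v * x := by
  rw [hs] at he
  have : t * (y - v * x) = 0 := by linarith
  rcases mul_eq_zero.1 this with h1 | h1
  · exact absurd h1 ht
  · linarith

theorem val_Ra {v r v2 v3 : ℕ} (hv : HasVar L v) (hr : r < L.length)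
    (hd : dget L r = (8, v, v2, v3)) : a r 0 = - val L a v * a r 1 ∧ a r 1 ≠ 0 := by
  obtain ⟨g, hg, hgd⟩ := hv.get (p := 6) (by norm_num) (by norm_num)
  have e := e_8_6 h hr hg hd hgd
  have h1 := val_H h hG hn hv hg hgd
  exact ⟨row_of h hG hn (Hf h hG hn hg hgd).1 h1 e, (ne_zero_of_mul_eq_one (s_8 h hr hd)).1⟩

theorem val_Rb {v r v2 v3 : ℕ} (hv : HasVar L v) (hr : r < L.length)
    (hd : dget L r = (9, v, v2, v3)) : a r 0 = - val L a v * a r 2 ∧ a r 2 ≠ 0 := by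
  obtain ⟨g, hg, hgd⟩ := hv.get (p := 6) (by norm_num) (by norm_num)
  have e := e_9_6 h hr hg hd hgd
  have h1 := val_H h hG hn hv hg hgd
  have h2 := Hf h hG hn hg hgd
  rw [h2.2.2.1] at e
  exact ⟨row_of h hG hn h2.1 h1 e, (ne_zero_of_mul_eq_one (s_9 h hr hd)).1⟩

theorem val_Rp {v r v2 v3 : ℕ} (hv : HasVar L v) (hr : r < L.length)
    (hd : dget L r = (10, v, v2, v3)) : a r 3 = - val L a v * a r 4 ∧ a r 4 ≠ 0 := by
  obtain ⟨g, hg, hgd⟩ := hv.get (p := 6) (by norm_num) (by norm_num)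
  have e := e_10_6 h hr hg hd hgd
  have h1 := val_H h hG hn hv hg hgd
  have h2 := Hf h hG hn hg hgd
  rw [h2.2.1, h2.2.2.2] at e
  exact ⟨row_of h hG hn h2.1 h1 e, (ne_zero_of_mul_eq_one (s_10 h hr hd)).1⟩

theorem val_G {v g v2 v3 : ℕ} (hv : HasVar L v) (hg : g < L.length)
    (hd : dget L g = (11, v, v2, v3)) : b g 2 = val L a v * b g 1 ∧ b g 1 ≠ 0 := by
  obtain ⟨r, hr, hrd⟩ := hv.get (p := 10) (by norm_num) (by norm_num)
  have e := e_10_11 h hr hg hrd hd
  have h1 := val_Rp h hG hn hv hr hrd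
  have h2 := Gf h hG hn hg hd
  have h3 := col_of h hG hn h1.2 h1.1 e
  rw [h2.2.2, ← h2.2.1] at h3
  exact ⟨h3, by rw [h2.2.1]; exact h2.1⟩

theorem val_Rc {v r v2 v3 : ℕ} (hv : HasVar L v) (hr : r < L.length)
    (hd : dget L r = (12, v, v2, v3)) : a r 1 = - val L a v * a r 2 ∧ a r 2 ≠ 0 := by
  obtain ⟨g, hg, hgd⟩ := hv.get (p := 11) (by norm_num) (by norm_num)
  have e := e_12_11 h hr hg hd hgd
  have h1 := val_G h hG hn hv hg hgd
  exact ⟨row_of h hG hn h1.2 h1.1 e, (ne_zero_of_mul_eq_one (s_12 h hr hd)).1⟩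

theorem val_C {v g v2 v3 : ℕ} (hv : HasVar L v) (hg : g < L.length)
    (hd : dget L g = (7, v, v2, v3)) : b g 1 = val L a v * b g 0 ∧ b g 0 ≠ 0 := by
  obtain ⟨r, hr, hrd⟩ := hv.get (p := 8) (by norm_num) (by norm_num)
  have e := e_8_7 h hr hg hrd hd
  have h1 := val_Ra h hG hn hv hr hrd
  exact ⟨col_of h hG hn h1.2 h1.1 e, (ne_zero_of_mul_eq_one (s_7 h hg hd)).2⟩

theorem val_S {v r v2 v3 : ℕ} (hv : HasVar L v) (hr : r < L.length)
    (hd : dget L r = (13, v, v2, v3)) :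
    a r 0 = - val L a v * a r 1 ∧ a r 2 = - a r 1 ∧ a r 1 ≠ 0 := by
  obtain ⟨g, hg, hgd⟩ := hv.get (p := 7) (by norm_num) (by norm_num)
  have e := e_13_7 h hr hg hd hgd
  have h1 := val_C h hG hn hv hg hgd
  have e2 := e_13_5 h hr (hG.lt (by norm_num)) hd hG.g5
  have h3 := Qf h hG hn
  rw [h3.1] at e2
  refine ⟨row_of h hG hn h1.2 h1.1 e, ?_, (ne_zero_of_mul_eq_one (s_13 h hr hd)).1⟩
  have : b 5 1 * (a r 1 + a r 2) = 0 := by linarith
  rcases mul_eq_zero.1 this with h4 | h4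
  · exact absurd h4 h3.2
  · linarith

theorem val_one {v r v2 v3 : ℕ} (hv : HasVar L v) (hr : r < L.length)
    (hd : dget L r = (16, v, v2, v3)) : val L a v = 1 := by
  obtain ⟨g, hg, hgd⟩ := hv.get (p := 6) (by norm_num) (by norm_num)
  have e := e_16_6 h hr hg hd hgd
  have h1 := val_H h hG hn hv hg hgd
  have h2 := row_of h hG hn (Hf h hG hn hg hgd).1 h1 e
  have h3 := (ne_zero_of_mul_eq_one (s_16 h hr hd)).1
  have e2 := e_16_0 h hr (hG.lt (by norm_num)) hd hG.g0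
  rw [hn 0 (by norm_num), hn 1 (by norm_num), h2] at e2
  have : a r 1 * (1 - val L a v) = 0 := by linarith
  rcases mul_eq_zero.1 this with h4 | h4
  · exact absurd h4 h3
  · linarith

theorem val_add {i j k d : ℕ} (hi : HasVar L i) (hj : HasVar L j) (hk : HasVar L k)
    (hd : d < L.length) (hdd : dget L d = (14, i, j, k)) :
    val L a i + val L a j = val L a k := by
  obtain ⟨r, hr, hrd⟩ := hk.get (p := 8) (by norm_num) (by norm_num)
  obtain ⟨s, hs, hsd⟩ := hj.get (p := 9) (by norm_num) (by norm_num)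
  obtain ⟨t, ht, htd⟩ := hi.get (p := 13) (by norm_num) (by norm_num)
  have h0 := (ne_zero_of_mul_eq_one (s_14 h hd hdd)).2
  have r1 := val_Ra h hG hn hk hr hrd
  have r2 := val_Rb h hG hn hj hs hsd
  have r3 := val_S h hG hn hi ht htd
  have c1 := col_of h hG hn r1.2 r1.1 (e_8_14 h hr hd hrd hdd)
  have c2 := col_of h hG hn r2.2 r2.1 (e_9_14 h hs hd hsd hdd)
  have e := e_13_14 h ht hd htd hdd
  rw [c1, c2, r3.1, r3.2.1] at e
  have : a t 1 * b d 0 * (val L a k - val L a i - val L a j) = 0 := by linarith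
  rcases mul_eq_zero.1 this with h4 | h4
  · exact absurd h4 (mul_ne_zero r3.2.2 h0)
  · linarith

theorem val_mul {i j k d : ℕ} (hi : HasVar L i) (hj : HasVar L j) (hk : HasVar L k)
    (hd : d < L.length) (hdd : dget L d = (15, i, j, k)) :
    val L a i * val L a j = val L a k := by
  obtain ⟨r, hr, hrd⟩ := hi.get (p := 8) (by norm_num) (by norm_num)
  obtain ⟨s, hs, hsd⟩ := hk.get (p := 9) (by norm_num) (by norm_num)
  obtain ⟨t, ht, htd⟩ := hj.get (p := 12) (by norm_num) (by norm_num)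
  have h0 := (ne_zero_of_mul_eq_one (s_15 h hd hdd)).2
  have r1 := val_Ra h hG hn hi hr hrd
  have r2 := val_Rb h hG hn hk hs hsd
  have r3 := val_Rc h hG hn hj ht htd
  have c1 := col_of h hG hn r1.2 r1.1 (e_8_15 h hr hd hrd hdd)
  have c2 := col_of h hG hn r2.2 r2.1 (e_9_15 h hs hd hsd hdd)
  have e := e_12_15 h ht hd htd hdd
  rw [c1, c2, r3.1] at e
  have : a t 2 * b d 0 * (val L a k - val L a i * val L a j) = 0 := by linarith
  rcases mul_eq_zero.1 this with h4 | h4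
  · exact absurd h4 (mul_ne_zero r3.2 h0)
  · linarith

end Values

theorem mem_dget {d : D} (hd : d ∈ L) : ∃ r, r < L.length ∧ dget L r = d := by
  obtain ⟨r, hr, h⟩ := List.getElem_of_mem hd
  refine ⟨r, hr, ?_⟩
  rw [dget, List.getD_eq_getElem _ _ hr, h]

theorem glob_descs (S : List ER.Con) : Glob (descs S) where
  len := by simp [descs, glob]
  g0 := rfl
  g1 := rfl
  g2 := rfl
  g3 := rfl
  g4 := rfl
  g5 := rfl

theorem hasVar_descs {S : List ER.Con} {c : ER.Con} (hc : c ∈ S) :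
    HasVar (descs S) c.code.2.1 ∧ HasVar (descs S) c.code.2.2.1 ∧
      HasVar (descs S) c.code.2.2.2 ∧
      ∃ r, r < (descs S).length ∧ dget (descs S) r =
        (if c.code.1 = 0 then 16 else if c.code.1 = 1 then 14 else 15, c.code.2) := by
  have key : ∀ d ∈ conD c.code, d ∈ descs S := fun d hd =>
    List.mem_append_right _ (List.mem_flatMap.2 ⟨c, hc, hd⟩)
  refine ⟨?_, ?_, ?_, ?_⟩
  · intro d hd
    exact mem_dget (key d (List.mem_append_left _ hd))
  · intro d hd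
    exact mem_dget (key d (List.mem_append_right _ (List.mem_append_left _ hd)))
  · intro d hd
    exact mem_dget (key d (List.mem_append_right _ (List.mem_append_right _
      (List.mem_append_left _ hd))))
  · exact mem_dget (key _ (List.mem_append_right _ (List.mem_append_right _
      (List.mem_append_right _ (List.mem_singleton.2 rfl)))))

/-- Soundness of the reduction on the level of bilinear systems. -/
theorem sound {S : List ER.Con} (h : IS (descs S) a b) : ER.Sat S := by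
  have hG := glob_descs S
  have ho := ones_ne_zero h hG
  have h' := h.rescale (fun k => b 0 k) ho
  have hn : ∀ k < 5, (fun i k => b i k / b 0 k) 0 k = 1 := fun k hk => div_self (ho k hk)
  refine ⟨val (descs S) (fun i k => a i k * b 0 k), ?_⟩
  intro c hc
  obtain ⟨h1, h2, h3, r, hr, hrd⟩ := hasVar_descs hc
  cases c with
  | one i => exact val_one h' hG hn h1 hr hrd
  | add i j k => exact val_add h' hG hn h1 h2 h3 hr hrd
  | mul i j k => exact val_mul h' hG hn h1 h2 h3 hr hrd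

end Pool.Agent.X246.CMI
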